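import Pool.Agent.GapA.NoData

/-!
# Two products of consecutive integers whose ratio has a small Pell unit
-/

namespace Pool.Agent.GapA

open Finset

theorem near_one (a V : ℕ) (h : 2 ^ V ∣ a * (a + 1)) :
    ∃ s : ℤ, (s = 1 ∨ s = -1) ∧ (2 : ℤ) ^ (V + 1) ∣ (2 * a + 1 : ℤ) - s := by
  rcases Nat.even_or_odd a with he | ho
  · have hc : Nat.Coprime (2 ^ V) (a + 1) := by
      apply Nat.Coprime.pow_left
      rw [Nat.coprime_two_left]
      exact Even.add_one he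
    have h1 : 2 ^ V ∣ a := hc.dvd_of_dvd_mul_right h
    obtain ⟨c, hc⟩ := h1
    refine ⟨1, Or.inl rfl, c, ?_⟩
    rw [hc]
    push_cast
    ring
  · have hc : Nat.Coprime (2 ^ V) a := by
      apply Nat.Coprime.pow_left
      rw [Nat.coprime_two_left]
      exact ho
    have h1 : 2 ^ V ∣ a + 1 := hc.dvd_of_dvd_mul_left h
    obtain ⟨c, hc⟩ := h1
    refine ⟨-1, Or.inr rfl, c, ?_⟩
    have h2 : (a : ℤ) = 2 ^ V * c - 1 := by
      have : ((a + 1 : ℕ) : ℤ) = ((2 ^ V * c : ℕ) : ℤ) := by rw [hc]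
      push_cast at this
      linarith
    rw [h2]
    ring

theorem core {ρ : ℕ} (hρ : 2 ≤ ρ) (x y a b V L : ℕ) (hy : 1 ≤ y) (hxy : x ^ 2 = ρ * y ^ 2 + 1)
    (hab : b * (b + 1) = ρ * (a * (a + 1))) (hV : 2 ^ V ∣ a * (a + 1)) (hL : 16 ≤ L)
    (t H : ℝ) (ht : t = ((x : ℝ) + y * √(ρ : ℝ)) ^ 2)
    (hH : H = (2 * b + 1 : ℝ) + (2 * a + 1) * √(ρ : ℝ))
    (lam Lam : ℕ) (hlam : Real.log t ≤ lam) (hLam : Real.log (ρ * t) ≤ Lam)
    (h1 : 288 * Lam * lam * L ^ 2 ≤ V + 1)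
    (h2 : (16 * Lam * L + 1) * lam ≤ Real.log H)
    (h3 : Real.exp 1 * (1 + Real.log H / (16 * Lam * Real.log t)) ≤ Real.exp (L / 8)) :
    False := by
  -- basic facts
  have hρR : (2 : ℝ) ≤ ρ := by exact_mod_cast hρ
  have hyR : (1 : ℝ) ≤ y := by exact_mod_cast hy
  set sρ : ℝ := √(ρ : ℝ) with hsρ
  have hss : sρ * sρ = ρ := Real.mul_self_sqrt (by positivity)
  have hs0 : 0 ≤ sρ := Real.sqrt_nonneg _
  have hs1 : 1 ≤ sρ := by
    rw [hsρ, Real.one_le_sqrt]; linarith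
  have hsρle : sρ ≤ ρ := by nlinarith
  have hxyR : (x : ℝ) ^ 2 = ρ * y ^ 2 + 1 := by exact_mod_cast hxy
  have hx3 : (3 : ℝ) ≤ (x : ℝ) ^ 2 := by
    rw [hxyR]
    nlinarith
  have hx0 : (0 : ℝ) ≤ x := Nat.cast_nonneg x
  have ht3 : 3 ≤ t := by
    rw [ht]
    have : 0 ≤ (y : ℝ) * sρ := by positivity
    nlinarith
  have ht1 : 1 < t := by linarith
  have ht0 : 0 < t := by linarith
  have hlogt : 0 < Real.log t := Real.log_pos ht1
  have hH1 : 1 ≤ H := by
    rw [hH]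
    have e1 : (0 : ℝ) ≤ b := Nat.cast_nonneg b
    have e2 : (0 : ℝ) ≤ (2 * a + 1) * sρ := by positivity
    linarith
  have hH0 : 0 < H := by linarith
  have hlam1 : 1 ≤ lam := by
    have : (0 : ℝ) < lam := lt_of_lt_of_le hlogt hlam
    exact_mod_cast this
  have hρt1 : 1 < (ρ : ℝ) * t := by nlinarith
  have hLam1 : 1 ≤ Lam := by
    have : (0 : ℝ) < Lam := lt_of_lt_of_le (Real.log_pos hρt1) hLam
    exact_mod_cast this
  have htlam : t ≤ Real.exp lam := by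
    rw [← Real.log_le_iff_le_exp ht0]; exact hlam
  have hρtLam : (ρ : ℝ) * t ≤ Real.exp Lam := by
    rw [← Real.log_le_iff_le_exp (by linarith)]; exact hLam
  -- the exponent `q`
  obtain ⟨q, hq1, hq2⟩ := exists_nat_pow_near hH1 ht1
  have hq1' : q * Real.log t ≤ Real.log H := by
    have := Real.log_le_log (by positivity) hq1
    rwa [Real.log_pow] at this
  have hq2' : Real.log H < (q + 1) * Real.log t := by
    have := Real.log_lt_log hH0 hq2
    rw [Real.log_pow] at this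
    push_cast at this
    exact this
  have hlamR : (1 : ℝ) ≤ lam := by exact_mod_cast hlam1
  have hLamR : (1 : ℝ) ≤ Lam := by exact_mod_cast hLam1
  have hqge : 16 * Lam * L ≤ q := by
    have e1 : ((16 * Lam * L + 1 : ℕ) : ℝ) * lam < ((q + 1 : ℕ) : ℝ) * lam := by
      push_cast
      calc (16 * Lam * L + 1 : ℝ) * lam ≤ Real.log H := h2
        _ < (q + 1) * Real.log t := hq2'
        _ ≤ (q + 1) * lam := mul_le_mul_of_nonneg_left hlam (by positivity)
    have e2 : ((16 * Lam * L + 1 : ℕ) : ℝ) < ((q + 1 : ℕ) : ℝ) :=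
      lt_of_mul_lt_mul_right e1 (by linarith)
    have e3 : 16 * Lam * L + 1 < q + 1 := by exact_mod_cast e2
    omega
  have hqY : Real.exp 1 * (1 + q / (16 * Lam)) ≤ Real.exp (L / 8) := by
    refine le_trans ?_ h3
    apply mul_le_mul_of_nonneg_left _ (by positivity)
    have e1 : (q : ℝ) ≤ Real.log H / Real.log t := by
      rw [le_div_iff₀ hlogt]; exact hq1'
    have e2 : Real.log H / (16 * Lam * Real.log t) = Real.log H / Real.log t / (16 * Lam) := by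
      rw [div_div, mul_comm (Real.log t)]
    rw [e2]
    have e3 : (q : ℝ) / (16 * Lam) ≤ Real.log H / Real.log t / (16 * Lam) :=
      div_le_div_of_nonneg_right e1 (by positivity)
    linarith
  -- the ring
  let d : ℤ := (ρ : ℤ)
  have hd0 : (0 : ℤ) ≤ d := Int.natCast_nonneg ρ
  have hdR : ((d : ℤ) : ℝ) = (ρ : ℝ) := Int.cast_natCast ρ
  have hns : ∀ n : ℤ, d ≠ n * n := by
    intro n hn
    have e1 : (ρ : ℤ) = n * n := hn
    have e2 : ((x : ℤ)) ^ 2 = (|n| * y) ^ 2 + 1 := by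
      have : ((x : ℤ)) ^ 2 = (ρ : ℤ) * (y : ℤ) ^ 2 + 1 := by exact_mod_cast hxy
      rw [this, e1, mul_pow, sq_abs]
      ring
    have hy' : (1 : ℤ) ≤ y := by exact_mod_cast hy
    have hn1 : (1 : ℤ) ≤ |n| := by
      apply Int.one_le_abs
      rintro rfl
      have : (2 : ℤ) ≤ ρ := by exact_mod_cast hρ
      omega
    have hk : (1 : ℤ) ≤ |n| * y := by nlinarith
    have hx' : (0 : ℤ) ≤ x := Int.natCast_nonneg x
    have e3 : |n| * (y : ℤ) < x := by nlinarith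
    nlinarith
  let θ : ℤ√d := ⟨(x : ℤ) ^ 2 + ρ * y ^ 2, 2 * x * y⟩
  let α : ℤ√d := ⟨2 * b + 1, -(2 * a + 1)⟩
  obtain ⟨sA, hsA, hdA⟩ := near_one a V hV
  obtain ⟨sB, hsB, hdB⟩ := near_one b V (by rw [hab]; exact Dvd.dvd.mul_left hV _)
  let γ : ℤ√d := ⟨sB, -sA⟩
  have hθre : θ.re = (x : ℤ) ^ 2 + ρ * y ^ 2 := rfl
  have hθim : θ.im = 2 * x * y := rfl
  have hαre : α.re = 2 * b + 1 := rfl
  have hαim : α.im = -(2 * a + 1) := rfl
  have hθr : Zsqrtd.toReal hd0 θ = t := by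
    rw [toReal_def, hdR, ← hsρ, ht, hθre, hθim]
    push_cast
    linear_combination (-(y : ℝ) ^ 2) * hss
  have hθr2 : toReal2 hd0 θ = ((x : ℝ) - y * sρ) ^ 2 := by
    rw [toReal2_def, hdR, ← hsρ, hθre, hθim]
    push_cast
    linear_combination (-(y : ℝ) ^ 2) * hss
  have hθprod : t * toReal2 hd0 θ = 1 := by
    rw [hθr2, ht]
    have e1 : ((x : ℝ) + y * sρ) * ((x : ℝ) - y * sρ) = 1 := by
      linear_combination hxyR - (y : ℝ) ^ 2 * hss
    calc ((x : ℝ) + y * sρ) ^ 2 * ((x : ℝ) - y * sρ) ^ 2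
        = (((x : ℝ) + y * sρ) * ((x : ℝ) - y * sρ)) ^ 2 := by ring
      _ = 1 := by rw [e1]; norm_num
  have hθ2pos : 0 < toReal2 hd0 θ := by
    by_contra hcon
    push Not at hcon
    nlinarith
  have hθ2le : toReal2 hd0 θ ≤ 1 := by
    by_contra hcon
    push Not at hcon
    nlinarith
  have hα1 : Zsqrtd.toReal hd0 α = (2 * b + 1) - (2 * a + 1) * sρ := by
    rw [toReal_def, hdR, ← hsρ, hαre, hαim]
    push_cast
    ring
  have hα2 : toReal2 hd0 α = H := by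
    rw [toReal2_def, hdR, ← hsρ, hH, hαre, hαim]
    push_cast
    ring
  have habR : (b : ℝ) * (b + 1) = ρ * (a * (a + 1)) := by exact_mod_cast hab
  have hαprod : Zsqrtd.toReal hd0 α * H = 1 - ρ := by
    rw [hα1, hH]
    linear_combination 4 * habR - (2 * (a : ℝ) + 1) ^ 2 * hss
  have hαabs : |Zsqrtd.toReal hd0 α| * H = ρ - 1 := by
    rw [← abs_of_pos hH0, ← abs_mul, hαprod, abs_sub_comm, abs_of_nonneg (by linarith)]
  let δ : ℤ√d := α * θ ^ q
  have hδ1 : |Zsqrtd.toReal hd0 δ| ≤ ρ := by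
    have e1 : Zsqrtd.toReal hd0 δ = Zsqrtd.toReal hd0 α * t ^ q := by
      change Zsqrtd.toReal hd0 (α * θ ^ q) = _
      rw [map_mul, map_pow, hθr]
    rw [e1, abs_mul, abs_of_pos (by positivity : 0 < t ^ q)]
    calc |Zsqrtd.toReal hd0 α| * t ^ q ≤ |Zsqrtd.toReal hd0 α| * H :=
          mul_le_mul_of_nonneg_left hq1 (abs_nonneg _)
      _ = ρ - 1 := hαabs
      _ ≤ ρ := by linarith
  have hδ2 : toReal2 hd0 δ = H * (toReal2 hd0 θ) ^ q := by
    change toReal2 hd0 (α * θ ^ q) = _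
    rw [map_mul, map_pow, hα2]
  have hδ2pos : 0 < toReal2 hd0 δ := by rw [hδ2]; positivity
  have hδ2le : toReal2 hd0 δ ≤ t := by
    rw [hδ2]
    calc H * (toReal2 hd0 θ) ^ q ≤ t ^ (q + 1) * (toReal2 hd0 θ) ^ q :=
          mul_le_mul_of_nonneg_right hq2.le (by positivity)
      _ = t * (t * toReal2 hd0 θ) ^ q := by rw [mul_pow]; ring
      _ = t := by rw [hθprod, one_pow, mul_one]
  have hγabs : ∀ u v : ℤ, (u = 1 ∨ u = -1) → (v = 1 ∨ v = -1) →
      |(u : ℝ) + v * sρ| ≤ ρ * t := by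
    intro u v hu hv
    have e1 : |(u : ℝ)| = 1 := by rcases hu with rfl | rfl <;> norm_num
    have e2 : |(v : ℝ)| = 1 := by rcases hv with rfl | rfl <;> norm_num
    calc |(u : ℝ) + v * sρ| ≤ |(u : ℝ)| + |v * sρ| := abs_add_le _ _
      _ = 1 + sρ := by rw [abs_mul, e1, e2, one_mul, abs_of_nonneg hs0]
      _ ≤ 1 + ρ := by linarith
      _ ≤ ρ * t := by nlinarith
  refine no_data hd0 hns L q (V + 1) lam Lam θ δ γ ?_ ?_ hL hlam1 hLam1 h1 hqge ?_ ?_ ?_
    ?_ ?_ ?_ ?_ ?_ ?_ hqY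
  · have e1 : ((2 : ℤ) : ℤ√d) ∣ θ - 1 := by
      rw [Zsqrtd.intCast_dvd]
      constructor
      · refine ⟨ρ * y ^ 2, ?_⟩
        have : ((x : ℤ)) ^ 2 = (ρ : ℤ) * (y : ℤ) ^ 2 + 1 := by exact_mod_cast hxy
        simp only [θ, Zsqrtd.re_sub, Zsqrtd.re_one]
        rw [this]
        ring
      · refine ⟨x * y, ?_⟩
        simp only [θ, Zsqrtd.im_sub, Zsqrtd.im_one]
        ring
    simpa using e1
  · have e1 : δ - γ * θ ^ q = (α - γ) * θ ^ q := by
      change α * θ ^ q - γ * θ ^ q = _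
      ring
    rw [e1]
    apply Dvd.dvd.mul_right
    have e2 : (((2 : ℤ) ^ (V + 1) : ℤ) : ℤ√d) ∣ α - γ := by
      rw [Zsqrtd.intCast_dvd]
      constructor
      · simpa [α, γ] using hdB
      · have e3 : (α - γ).im = -((2 * a + 1 : ℤ) - sA) := by
          simp [α, γ]
          ring
        rw [e3]
        exact (dvd_neg.2 hdA)
    simpa using e2
  · rw [hθr]; exact ht1
  · intro h0
    rw [h0, map_zero] at hδ2pos
    exact lt_irrefl _ hδ2pos
  · intro h0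
    have e1 : sB = 0 := congrArg Zsqrtd.re h0
    rcases hsB with h | h <;> omega
  · rw [hθr, abs_of_pos ht0]; exact htlam
  · rw [abs_of_pos hθ2pos]
    exact hθ2le.trans (ht1.le.trans htlam)
  · refine hδ1.trans (le_trans ?_ hρtLam)
    nlinarith
  · rw [abs_of_pos hδ2pos]
    refine hδ2le.trans (le_trans ?_ hρtLam)
    nlinarith
  · rw [toReal_def, hdR, ← hsρ]
    refine le_trans ?_ hρtLam
    exact hγabs sB (-sA) hsB (by rcases hsA with h | h <;> simp [h])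
  · rw [toReal2_def, hdR, ← hsρ]
    refine le_trans ?_ hρtLam
    have e1 := hγabs sB sA hsB hsA
    have e2 : ((γ.re : ℤ) : ℝ) - ((γ.im : ℤ) : ℝ) * sρ = (sB : ℝ) + sA * sρ := by
      simp only [γ]
      push_cast
      ring
    rw [e2]
    exact e1

end Pool.Agent.GapA
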