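import Mathlib

/-!
# Divisibility of an interpolation determinant
-/

namespace Pool.Agent.GapA

open Finset Matrix

variable {R : Type*} [CommRing R]

/-- Expansion of the determinant of a rectangular product over all maps. -/
theorem det_sum_smul {N : ℕ} {J : Type*} [Fintype J] [DecidableEq J]
    (T : Fin N → J → R) (B : J → Fin N → R) :
    (Matrix.of fun a b => ∑ j, T a j * B j b).det
      = ∑ f : Fin N → J, (∏ a, T a (f a)) * (Matrix.of fun a => B (f a)).det := by
  have h1 : (Matrix.of fun a b => ∑ j, T a j * B j b).det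
      = Matrix.detRowAlternating (R := R) (n := Fin N) (fun a => ∑ j, T a j • B j) := by
    change Matrix.det _ = Matrix.det _
    congr 1
    ext a b
    simp [Finset.sum_apply]
  rw [h1]
  have h2 := (Matrix.detRowAlternating (R := R) (n := Fin N)).toMultilinearMap.map_sum
    (fun (a : Fin N) (j : J) => T a j • B j)
  have h3 : ∀ f : Fin N → J,
      (Matrix.detRowAlternating (R := R) (n := Fin N)) (fun a => T a (f a) • B (f a))
        = (∏ a, T a (f a)) * (Matrix.of fun a => B (f a)).det := by
    intro f
    have := (Matrix.detRowAlternating (R := R) (n := Fin N)).toMultilinearMap.map_smul_univ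
      (fun a => T a (f a)) (fun a => B (f a))
    exact this
  calc _ = ∑ f : Fin N → J,
      (Matrix.detRowAlternating (R := R) (n := Fin N)) (fun a => T a (f a) • B (f a)) := h2
    _ = _ := Finset.sum_congr rfl fun f _ => h3 f

/-- If the rows `B j` are `p ^ w j` times something, and every injective choice of rows has total
weight at least `G`, then `p ^ G` divides the determinant. -/
theorem pow_dvd_det {N : ℕ} {J : Type*} [Fintype J] [DecidableEq J]
    (T : Fin N → J → R) (B : J → Fin N → R) (p : R) (w : J → ℕ) (G : ℕ)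
    (hw : ∀ j b, p ^ w j ∣ B j b)
    (hG : ∀ f : Fin N → J, Function.Injective f → G ≤ ∑ a, w (f a)) :
    p ^ G ∣ (Matrix.of fun a b => ∑ j, T a j * B j b).det := by
  rw [det_sum_smul]
  refine Finset.dvd_sum fun f _ => ?_
  by_cases hf : Function.Injective f
  · refine Dvd.dvd.mul_left ?_ _
    choose C hC using hw
    have h1 : (Matrix.of fun a => B (f a)) = Matrix.of fun a b => p ^ w (f a) * C (f a) b := by
      ext a b
      simp [hC (f a) b]
    rw [h1]
    have h2 := Matrix.det_mul_column (fun a => p ^ w (f a)) (Matrix.of fun a b => C (f a) b)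
    have h3 : (Matrix.of fun a b => p ^ w (f a) * C (f a) b).det
        = (∏ a, p ^ w (f a)) * (Matrix.of fun a b => C (f a) b).det := h2
    rw [h3, Finset.prod_pow_eq_pow_sum]
    exact Dvd.dvd.mul_right (pow_dvd_pow p (hG f hf)) _
  · have h0 : (Matrix.of fun a => B (f a)).det = 0 := by
      have hnot : ∃ a b, a ≠ b ∧ f a = f b := by
        simp only [Function.Injective, not_forall] at hf
        obtain ⟨a, b, hab, hne⟩ := hf
        exact ⟨a, b, hne, hab⟩
      obtain ⟨a, b, hne, hab⟩ := hnot
      apply Matrix.det_zero_of_row_eq hne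
      ext c
      simp [hab]
    rw [h0, mul_zero]
    exact dvd_zero _

/-- The weights `i + 1 - K` (for the Newton rows) and `V` (for the remainder rows). -/
theorem weight_sum_ge {N I K V : ℕ} (hV : N ≤ K + V) (f : Fin N → (Fin I ⊕ Fin N))
    (hf : Function.Injective f) :
    ∑ t ∈ range (N - K), (N - K - t)
      ≤ ∑ a, (Sum.elim (fun i : Fin I => (i : ℕ) + 1 - K) (fun _ : Fin N => V) (f a)) := by
  classical
  set w : Fin I ⊕ Fin N → ℕ := Sum.elim (fun i : Fin I => (i : ℕ) + 1 - K) (fun _ => V) with hw
  have h1 : ∀ a, ∑ t ∈ range (N - K), (if t < w (f a) then 1 else 0) ≤ w (f a) := by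
    intro a
    rw [← Finset.sum_filter, Finset.sum_const, smul_eq_mul, mul_one]
    calc #{t ∈ range (N - K) | t < w (f a)} ≤ #(range (w (f a))) := by
          apply Finset.card_le_card
          intro t ht
          rw [Finset.mem_filter] at ht
          exact Finset.mem_range.2 ht.2
      _ = _ := Finset.card_range _
  calc ∑ t ∈ range (N - K), (N - K - t)
      ≤ ∑ t ∈ range (N - K), ∑ a : Fin N, (if t < w (f a) then 1 else 0) := by
        refine Finset.sum_le_sum fun t ht => ?_
        rw [Finset.mem_range] at ht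
        rw [← Finset.sum_filter, Finset.sum_const, smul_eq_mul, mul_one]
        have h2 : #{a : Fin N | ¬ t < w (f a)} ≤ K + t := by
          have h3 : ({a : Fin N | ¬ t < w (f a)} : Finset (Fin N)).image f
              ⊆ ({j : Fin I ⊕ Fin N | ¬ t < w j} : Finset _) := by
            intro j hj
            rw [Finset.mem_image] at hj
            obtain ⟨a, ha, rfl⟩ := hj
            rw [Finset.mem_filter] at ha ⊢
            exact ⟨Finset.mem_univ _, ha.2⟩
          rw [← Finset.card_image_of_injective _ hf]
          refine (Finset.card_le_card h3).trans ?_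
          have h4 : ({j : Fin I ⊕ Fin N | ¬ t < w j} : Finset _)
              ⊆ (({i : Fin I | (i : ℕ) < K + t} : Finset (Fin I)).map ⟨Sum.inl, Sum.inl_injective⟩) := by
            intro j hj
            rw [Finset.mem_filter] at hj
            rcases j with i | b
            · simp only [hw, Sum.elim_inl] at hj
              rw [Finset.mem_map]
              refine ⟨i, ?_, rfl⟩
              rw [Finset.mem_filter]
              refine ⟨Finset.mem_univ _, ?_⟩
              have := hj.2
              omega
            · simp only [hw, Sum.elim_inr] at hj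
              have := hj.2
              omega
          refine (Finset.card_le_card h4).trans ?_
          rw [Finset.card_map]
          have h5 : ({i : Fin I | (i : ℕ) < K + t} : Finset (Fin I)).image (fun i : Fin I => (i : ℕ))
              ⊆ range (K + t) := by
            intro j hj
            rw [Finset.mem_image] at hj
            obtain ⟨i, hi, rfl⟩ := hj
            rw [Finset.mem_filter] at hi
            exact Finset.mem_range.2 hi.2
          rw [← Finset.card_image_of_injective _ Fin.val_injective]
          exact (Finset.card_le_card h5).trans (by rw [Finset.card_range])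
        have h6 := Finset.card_filter_add_card_filter_not (s := (univ : Finset (Fin N)))
          (fun a => t < w (f a))
        rw [Finset.card_univ, Fintype.card_fin] at h6
        omega
    _ = ∑ a : Fin N, ∑ t ∈ range (N - K), (if t < w (f a) then 1 else 0) := Finset.sum_comm
    _ ≤ _ := Finset.sum_le_sum fun a _ => h1 a

/-- Newton expansion of `x ↦ C(x,k) (1+b)^x`. -/
theorem choose_mul_pow (b : R) (x k I : ℕ) (hI : x < I) :
    ((x.choose k : ℕ) : R) * (1 + b) ^ x
      = ∑ i ∈ range I, ((x.choose i : ℕ) : R) *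
          (((i.choose k : ℕ) : R) * b ^ (i - k) * (1 + b) ^ k) := by
  by_cases hk : k ≤ x
  · have h1 : (1 + b) ^ x = (1 + b) ^ (x - k) * (1 + b) ^ k := by
      rw [← pow_add, Nat.sub_add_cancel hk]
    rw [h1, add_comm 1 b, add_pow b 1 (x - k)]
    have h2 : ∑ i ∈ range I, ((x.choose i : ℕ) : R) *
          (((i.choose k : ℕ) : R) * b ^ (i - k) * (b + 1) ^ k)
        = ∑ i ∈ (range (x + 1)).filter (fun i => k ≤ i), ((x.choose i : ℕ) : R) *
          (((i.choose k : ℕ) : R) * b ^ (i - k) * (b + 1) ^ k) := by
      symm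
      apply Finset.sum_subset
      · intro i hi
        rw [Finset.mem_filter, Finset.mem_range] at hi
        rw [Finset.mem_range]; omega
      · intro i _ hi
        rw [Finset.mem_filter, Finset.mem_range, not_and_or] at hi
        rcases hi with hi | hi
        · rw [Nat.choose_eq_zero_of_lt (by omega : x < i)]; simp
        · rw [Nat.choose_eq_zero_of_lt (by omega : i < k)]; simp
    rw [h2]
    have h3 : (range (x + 1)).filter (fun i => k ≤ i) = (range (x - k + 1)).image (fun m => m + k) := by
      ext i
      simp only [Finset.mem_filter, Finset.mem_range, Finset.mem_image]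
      constructor
      · rintro ⟨h, h'⟩; exact ⟨i - k, by omega, by omega⟩
      · rintro ⟨m, h, rfl⟩; exact ⟨by omega, by omega⟩
    rw [h3, Finset.sum_image (by intro a _ c _ h; simpa using h), Finset.sum_mul, Finset.mul_sum]
    refine Finset.sum_congr rfl fun m hm => ?_
    rw [Finset.mem_range] at hm
    have h4 := Nat.choose_mul (n := x) (k := m + k) (s := k) (by omega)
    rw [Nat.add_sub_cancel] at h4
    have h5 : ((x.choose (m + k) : ℕ) : R) * (((m + k).choose k : ℕ) : R)
        = ((x.choose k : ℕ) : R) * (((x - k).choose m : ℕ) : R) := by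
      rw [← Nat.cast_mul, h4, Nat.cast_mul]
    rw [Nat.add_sub_cancel]
    calc ((x.choose k : ℕ) : R) * (b ^ m * 1 ^ (x - k - m) * (((x - k).choose m : ℕ) : R) * (b + 1) ^ k)
        = (((x.choose k : ℕ) : R) * (((x - k).choose m : ℕ) : R)) * (b ^ m * (b + 1) ^ k) := by
          rw [one_pow]; ring
      _ = _ := by rw [← h5]; ring
  · rw [Nat.choose_eq_zero_of_lt (by omega : x < k)]
    rw [Nat.cast_zero, zero_mul]
    symm
    apply Finset.sum_eq_zero
    intro i _
    by_cases hi : i < k
    · rw [Nat.choose_eq_zero_of_lt hi]; simp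
    · rw [Nat.choose_eq_zero_of_lt (by omega : x < i)]; simp

/-- The entries of the interpolation matrix. -/
def ent (L q : ℕ) (θ δ γ : R) (k l r s : ℕ) : R :=
  (((r + s * q).choose k : ℕ) : R) * θ ^ (l * r) * δ ^ (l * s) * γ ^ ((L - 1 - l) * s)

/-- One entry modulo `p ^ V`. -/
theorem ent_congr (L q V : ℕ) (p θ δ γ : R) (h : p ^ V ∣ δ - γ * θ ^ q) (k l r s : ℕ)
    (hl : l < L) :
    ∃ e : R, ent L q θ δ γ k l r s
      = γ ^ ((L - 1) * s) * ((((r + s * q).choose k : ℕ) : R) * (θ ^ l) ^ (r + s * q)) + p ^ V * e := by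
  have h1 : p ^ V ∣ δ ^ (l * s) - (γ * θ ^ q) ^ (l * s) := h.trans (sub_dvd_pow_sub_pow _ _ _)
  obtain ⟨e, he⟩ := h1
  refine ⟨(((r + s * q).choose k : ℕ) : R) * θ ^ (l * r) * γ ^ ((L - 1 - l) * s) * e, ?_⟩
  have h2 : δ ^ (l * s) = (γ * θ ^ q) ^ (l * s) + p ^ V * e := by rw [← he]; ring
  have h3 : γ ^ ((L - 1) * s) = γ ^ (l * s) * γ ^ ((L - 1 - l) * s) := by
    rw [← pow_add, ← Nat.add_mul]
    congr 2
    omega
  have h4 : (θ ^ l) ^ (r + s * q) = θ ^ (l * r) * (θ ^ q) ^ (l * s) := by
    rw [← pow_mul, ← pow_mul, ← pow_add]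
    congr 1
    ring
  rw [ent, h2, h3, h4, mul_pow]
  ring

/-- Main divisibility. -/
theorem dvd_det_ent (K L q V : ℕ) (p θ δ γ : R) (hθ : p ∣ θ - 1) (h : p ^ V ∣ δ - γ * θ ^ q)
    (hV : K * L ≤ K + V) (rr ss : Fin (K * L) → ℕ) :
    p ^ (∑ t ∈ range (K * L - K), (K * L - K - t)) ∣
      (Matrix.of fun (a b : Fin (K * L)) =>
        ent L q θ δ γ (finProdFinEquiv.symm b).1 (finProdFinEquiv.symm b).2 (rr a) (ss a)).det := by
  classical
  set I : ℕ := (∑ a, (rr a + ss a * q)) + 1 with hI
  have hIa : ∀ a, rr a + ss a * q < I := by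
    intro a
    have : rr a + ss a * q ≤ ∑ a, (rr a + ss a * q) :=
      Finset.single_le_sum (f := fun a => rr a + ss a * q) (fun _ _ => Nat.zero_le _)
        (Finset.mem_univ a)
    omega
  have hex : ∀ (a b : Fin (K * L)), ∃ e : R, ent L q θ δ γ (finProdFinEquiv.symm b).1
      (finProdFinEquiv.symm b).2 (rr a) (ss a)
      = γ ^ ((L - 1) * ss a) * ((((rr a + ss a * q).choose (finProdFinEquiv.symm b).1 : ℕ) : R) *
        (θ ^ ((finProdFinEquiv.symm b).2 : ℕ)) ^ (rr a + ss a * q)) + p ^ V * e := fun a b =>
    ent_congr L q V p θ δ γ h _ _ _ _ (finProdFinEquiv.symm b).2.isLt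
  choose E hE using hex
  have hb : ∀ l : ℕ, p ∣ θ ^ l - 1 := fun l => hθ.trans (by simpa using sub_dvd_pow_sub_pow θ 1 l)
  choose c hc using hb
  let T : Fin (K * L) → (Fin I ⊕ Fin (K * L)) → R := fun a =>
    Sum.elim (fun i => γ ^ ((L - 1) * ss a) * (((rr a + ss a * q).choose (i : ℕ) : ℕ) : R))
      (fun b => E a b)
  let B : (Fin I ⊕ Fin (K * L)) → Fin (K * L) → R := fun j b =>
    Sum.elim (fun i : Fin I => (((i : ℕ).choose (finProdFinEquiv.symm b).1 : ℕ) : R) *
        (θ ^ ((finProdFinEquiv.symm b).2 : ℕ) - 1) ^ ((i : ℕ) - (finProdFinEquiv.symm b).1) *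
        (1 + (θ ^ ((finProdFinEquiv.symm b).2 : ℕ) - 1)) ^ ((finProdFinEquiv.symm b).1 : ℕ))
      (fun b' => if b' = b then p ^ V else 0) j
  have hM : (Matrix.of fun (a b : Fin (K * L)) =>
        ent L q θ δ γ (finProdFinEquiv.symm b).1 (finProdFinEquiv.symm b).2 (rr a) (ss a))
      = Matrix.of fun a b => ∑ j, T a j * B j b := by
    ext a b
    rw [Matrix.of_apply, Matrix.of_apply, hE a b, Fintype.sum_sum_type]
    congr 1
    · have h1 := choose_mul_pow (θ ^ ((finProdFinEquiv.symm b).2 : ℕ) - 1) (rr a + ss a * q)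
        (finProdFinEquiv.symm b).1 I (hIa a)
      have h2 : (1 : R) + (θ ^ ((finProdFinEquiv.symm b).2 : ℕ) - 1)
          = θ ^ ((finProdFinEquiv.symm b).2 : ℕ) := by ring
      rw [h2] at h1
      rw [h1, Finset.mul_sum, Finset.sum_range]
      refine Finset.sum_congr rfl fun i _ => ?_
      simp only [T, B, Sum.elim_inl]
      rw [h2]
      ring
    · simp only [T, B, Sum.elim_inr]
      rw [Finset.sum_eq_single b]
      · simp [mul_comm]
      · intro b' _ hb'
        simp [hb']
      · intro hb'
        exact absurd (Finset.mem_univ b) hb'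
  rw [hM]
  apply pow_dvd_det T B p (Sum.elim (fun i : Fin I => (i : ℕ) + 1 - K) (fun _ : Fin (K * L) => V))
  · intro j b
    rcases j with i | b'
    · simp only [B, Sum.elim_inl]
      by_cases hik : (i : ℕ) < (finProdFinEquiv.symm b).1
      · rw [Nat.choose_eq_zero_of_lt hik]
        simp
      · refine Dvd.dvd.mul_right (Dvd.dvd.mul_left ?_ _) _
        rw [hc, mul_pow]
        refine Dvd.dvd.mul_right (pow_dvd_pow p ?_) _
        have := (finProdFinEquiv.symm b).1.isLt
        omega
    · simp only [B, Sum.elim_inr]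
      split_ifs
      · exact dvd_rfl
      · exact dvd_zero _
  · intro f hf
    exact weight_sum_ge hV f hf

end Pool.Agent.GapA
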