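import Pool.Agent.GapA.Zero

/-!
# The main inequality for the interpolation determinant over `ℤ√d`
-/

namespace Pool.Agent.GapA

open Finset Matrix

/-- `a + b√d ↦ a - b√d` as a real number -/
noncomputable def toReal2 {d : ℤ} (h : 0 ≤ d) : ℤ√d →+* ℝ :=
  Zsqrtd.lift ⟨-√(d : ℝ), by
    rw [neg_mul_neg]; exact Real.mul_self_sqrt (Int.cast_nonneg h)⟩

theorem toReal_def {d : ℤ} (h : 0 ≤ d) (z : ℤ√d) :
    Zsqrtd.toReal h z = z.re + z.im * √(d : ℝ) := by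
  simp

theorem toReal2_def {d : ℤ} (h : 0 ≤ d) (z : ℤ√d) :
    toReal2 h z = z.re - z.im * √(d : ℝ) := by
  simp [toReal2]
  ring

theorem toReal_mul_toReal2 {d : ℤ} (h : 0 ≤ d) (z : ℤ√d) :
    Zsqrtd.toReal h z * toReal2 h z = (z.norm : ℝ) := by
  rw [toReal_def, toReal2_def, Zsqrtd.norm_def]
  have := Real.mul_self_sqrt (show (0 : ℝ) ≤ (d : ℝ) by exact_mod_cast h)
  push_cast
  linear_combination (-(z.im : ℝ) * z.im) * this

theorem map_ent {A B : Type*} [CommRing A] [CommRing B] (φ : A →+* B) (L q : ℕ) (θ δ γ : A)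
    (k l r s : ℕ) :
    φ (ent L q θ δ γ k l r s) = ent L q (φ θ) (φ δ) (φ γ) k l r s := by
  simp [ent]

theorem abs_ent_le (L q : ℕ) (θ δ γ : ℝ) (Θ D Y : ℝ) (hΘ1 : 1 ≤ Θ) (hD1 : 1 ≤ D) (hY0 : 0 ≤ Y)
    (hθ : |θ| ≤ Θ) (hδ : |δ| ≤ D) (hγ : |γ| ≤ D) (k l r s R S : ℕ) (hl : l < L) (hr : r < R)
    (hs : s < S) (hY : (((r + s * q).choose k : ℕ) : ℝ) ≤ Y) :
    |ent L q θ δ γ k l r s| ≤ Y * Θ ^ (L * R) * D ^ (L * S) := by
  rw [ent, abs_mul, abs_mul, abs_mul, abs_pow, abs_pow, abs_pow, Nat.abs_cast]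
  have h1 : |θ| ^ (l * r) ≤ Θ ^ (L * R) :=
    (pow_le_pow_left₀ (abs_nonneg _) hθ _).trans
      (pow_le_pow_right₀ hΘ1 (Nat.mul_le_mul hl.le hr.le))
  have h2 : |δ| ^ (l * s) * |γ| ^ ((L - 1 - l) * s) ≤ D ^ (L * S) := by
    calc |δ| ^ (l * s) * |γ| ^ ((L - 1 - l) * s) ≤ D ^ (l * s) * D ^ ((L - 1 - l) * s) :=
          mul_le_mul (pow_le_pow_left₀ (abs_nonneg _) hδ _) (pow_le_pow_left₀ (abs_nonneg _) hγ _)
            (by positivity) (by positivity)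
      _ = D ^ ((L - 1) * s) := by
          rw [← pow_add, ← Nat.add_mul]
          congr 2
          omega
      _ ≤ D ^ (L * S) := pow_le_pow_right₀ hD1 (Nat.mul_le_mul (by omega) hs.le)
  calc (((r + s * q).choose k : ℕ) : ℝ) * |θ| ^ (l * r) * |δ| ^ (l * s) * |γ| ^ ((L - 1 - l) * s)
      = (((r + s * q).choose k : ℕ) : ℝ) * |θ| ^ (l * r) *
          (|δ| ^ (l * s) * |γ| ^ ((L - 1 - l) * s)) := by ring
    _ ≤ Y * Θ ^ (L * R) * D ^ (L * S) := by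
        apply mul_le_mul (mul_le_mul hY h1 (by positivity) hY0) h2 (by positivity) (by positivity)

theorem main_ineq {d : ℤ} (hd0 : 0 ≤ d) (hns : ∀ n : ℤ, d ≠ n * n) (K L q V R2 S : ℕ)
    (θ δ γ : ℤ√d) (hθ : (2 : ℤ√d) ∣ θ - 1) (h : (2 : ℤ√d) ^ V ∣ δ - γ * θ ^ q)
    (hV : K * L ≤ K + V) (hq : R2 ≤ q) (hRS : L * (K - 1) < R2 * S)
    (hθ1 : 1 < Zsqrtd.toReal hd0 θ) (hδ : δ ≠ 0) (hγ : γ ≠ 0)
    (Θ D Y : ℝ) (hΘ1 : 1 ≤ Θ) (hD1 : 1 ≤ D) (hY0 : 0 ≤ Y)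
    (b1 : |Zsqrtd.toReal hd0 θ| ≤ Θ) (b2 : |toReal2 hd0 θ| ≤ Θ)
    (b3 : |Zsqrtd.toReal hd0 δ| ≤ D) (b4 : |toReal2 hd0 δ| ≤ D)
    (b5 : |Zsqrtd.toReal hd0 γ| ≤ D) (b6 : |toReal2 hd0 γ| ≤ D)
    (hY : ∀ x k, x < R2 + L + S * q → k < K → ((x.choose k : ℕ) : ℝ) ≤ Y) :
    (4 : ℝ) ^ (∑ t ∈ range (K * L - K), (K * L - K - t))
      ≤ (((K * L).factorial : ℝ) * (Y * Θ ^ (L * (R2 + L)) * D ^ (L * S)) ^ (K * L)) ^ 2 := by
  classical
  have hinjR := Zsqrtd.toReal_injective hd0 hns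
  have hne : ∀ z : ℤ√d, z ≠ 0 → Zsqrtd.toReal hd0 z ≠ 0 := fun z hz h0 =>
    hz (hinjR (h0.trans (map_zero _).symm))
  have hθ0 : Zsqrtd.toReal hd0 θ ≠ 0 := by
    intro h0; rw [h0] at hθ1; linarith
  obtain ⟨rr, ss, hrr, hss, hdet⟩ := exists_rows K L q R2 S (Zsqrtd.toReal hd0 θ)
    (Zsqrtd.toReal hd0 δ) (Zsqrtd.toReal hd0 γ) hθ0 (hne δ hδ) (hne γ hγ)
    (fun l l' _ _ h => pow_right_injective₀ (by linarith) (by linarith) h) hq hRS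
  set Δ : ℤ√d := (Matrix.of fun (a b : Fin (K * L)) =>
        ent L q θ δ γ (finProdFinEquiv.symm b).1 (finProdFinEquiv.symm b).2 (rr a) (ss a)).det
    with hΔ
  have hmap : ∀ φ : ℤ√d →+* ℝ, φ Δ = (Matrix.of fun (a b : Fin (K * L)) =>
        ent L q (φ θ) (φ δ) (φ γ) (finProdFinEquiv.symm b).1 (finProdFinEquiv.symm b).2
          (rr a) (ss a)).det := by
    intro φ
    rw [hΔ, RingHom.map_det]
    congr 1
    ext a b
    exact map_ent φ _ _ _ _ _ _ _ _ _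
  have hΔ0 : Δ ≠ 0 := by
    intro h0
    apply hdet
    rw [← hmap, h0, map_zero]
  have hbound : ∀ φ : ℤ√d →+* ℝ, |φ θ| ≤ Θ → |φ δ| ≤ D → |φ γ| ≤ D →
      |φ Δ| ≤ ((K * L).factorial : ℝ) * (Y * Θ ^ (L * (R2 + L)) * D ^ (L * S)) ^ (K * L) := by
    intro φ h1 h2 h3
    rw [hmap φ]
    have h4 := Matrix.det_le (A := (Matrix.of fun (a b : Fin (K * L)) =>
        ent L q (φ θ) (φ δ) (φ γ) (finProdFinEquiv.symm b).1 (finProdFinEquiv.symm b).2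
          (rr a) (ss a))) (abv := (AbsoluteValue.abs : AbsoluteValue ℝ ℝ))
          (x := Y * Θ ^ (L * (R2 + L)) * D ^ (L * S)) (by
        intro a b
        rw [Matrix.of_apply]
        apply abs_ent_le L q _ _ _ Θ D Y hΘ1 hD1 hY0 h1 h2 h3 _ _ _ _ _ _
          (finProdFinEquiv.symm b).2.isLt (hrr a) (hss a)
        apply hY _ _ _ (finProdFinEquiv.symm b).1.isLt
        have e1 := hrr a
        have e2 : ss a * q ≤ S * q := Nat.mul_le_mul_right _ (hss a).le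
        omega)
    rw [Fintype.card_fin, nsmul_eq_mul] at h4
    exact h4
  set G : ℕ := ∑ t ∈ range (K * L - K), (K * L - K - t) with hG
  have hdvd : (2 : ℤ√d) ^ G ∣ Δ := dvd_det_ent K L q V 2 θ δ γ hθ h hV rr ss
  obtain ⟨Δ', hΔ'⟩ := hdvd
  have hnorm : Δ.norm = 4 ^ G * Δ'.norm := by
    have h2 : ((2 : ℤ√d) ^ G).norm = 4 ^ G := by
      have h3 : ((2 : ℤ√d) ^ G).norm = ((2 : ℤ√d).norm) ^ G :=
        map_pow (Zsqrtd.normMonoidHom (d := d)) 2 G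
      have h4 : (2 : ℤ√d).norm = 4 := by
        have := Zsqrtd.norm_natCast (d := d) 2
        norm_num at this
        exact this
      rw [h3, h4]
    rw [hΔ', Zsqrtd.norm_mul, h2]
  have hnorm0 : Δ.norm ≠ 0 := fun h0 => hΔ0 ((Zsqrtd.norm_eq_zero hns Δ).1 h0)
  have hΔ'0 : Δ'.norm ≠ 0 := fun h0 => hnorm0 (by rw [hnorm, h0, mul_zero])
  have h5 : (4 : ℝ) ^ G ≤ |(Δ.norm : ℝ)| := by
    rw [hnorm]
    push_cast
    rw [abs_mul, abs_of_nonneg (by positivity : (0 : ℝ) ≤ 4 ^ G)]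
    apply le_mul_of_one_le_right (by positivity)
    have : (1 : ℤ) ≤ |Δ'.norm| := Int.one_le_abs hΔ'0
    exact_mod_cast this
  rw [← toReal_mul_toReal2 hd0, abs_mul] at h5
  refine h5.trans ?_
  rw [sq]
  exact mul_le_mul (hbound _ b1 b3 b5) (hbound _ b2 b4 b6) (abs_nonneg _) (by positivity)

end Pool.Agent.GapA
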