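import Pool.Agent.GapA.Ineq

/-!
# Choice of the parameters
-/

namespace Pool.Agent.GapA

open Finset Matrix

theorem choose_le_pow (x k K : ℕ) (Z : ℝ) (hZ : 1 ≤ Z) (hk : k ≤ K) (hx : (x : ℝ) ≤ Z * K) :
    ((x.choose k : ℕ) : ℝ) ≤ (Real.exp 1 * Z) ^ K := by
  have hZ0 : 0 < Z := by linarith
  have h1 : ((x.choose k : ℕ) : ℝ) * (1 / Z) ^ k ≤ (1 / Z + 1) ^ x := by
    rw [add_pow]
    by_cases hkx : k ≤ x
    · have h2 := Finset.single_le_sum
        (f := fun m => (1 / Z) ^ m * (1 : ℝ) ^ (x - m) * ((x.choose m : ℕ) : ℝ))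
        (s := range (x + 1)) (fun m _ => by positivity) (Finset.mem_range.2 (by omega : k < x + 1))
      simp only [one_pow, mul_one] at h2 ⊢
      linarith [h2, mul_comm (((x.choose k : ℕ) : ℝ)) ((1 / Z) ^ k)]
    · rw [Nat.choose_eq_zero_of_lt (by omega)]
      simp only [Nat.cast_zero, zero_mul]
      positivity
  have h3 : (1 / Z + 1) ^ x ≤ Real.exp K := by
    calc (1 / Z + 1) ^ x ≤ (Real.exp (1 / Z)) ^ x :=
          pow_le_pow_left₀ (by positivity) (Real.add_one_le_exp _) _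
      _ = Real.exp (x * (1 / Z)) := by rw [← Real.exp_nat_mul]
      _ ≤ Real.exp K := by
          apply Real.exp_le_exp.2
          rw [mul_one_div, div_le_iff₀ hZ0]
          linarith
  have h4 : ((x.choose k : ℕ) : ℝ) ≤ Real.exp K * Z ^ k := by
    have h5 := h1.trans h3
    rw [one_div, inv_pow, ← div_eq_mul_inv, div_le_iff₀ (by positivity)] at h5
    exact h5
  calc ((x.choose k : ℕ) : ℝ) ≤ Real.exp K * Z ^ k := h4
    _ ≤ Real.exp K * Z ^ K := by
        apply mul_le_mul_of_nonneg_left (pow_le_pow_right₀ hZ hk) (by positivity)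
    _ = (Real.exp 1 * Z) ^ K := by
        rw [mul_pow, ← Real.exp_nat_mul, mul_one]

theorem gauss_sum (m : ℕ) : (2 : ℝ) * ((∑ t ∈ range m, (m - t) : ℕ) : ℝ) = m * (m + 1) := by
  have h : ∑ t ∈ range m, (m - t) = ∑ t ∈ range m, (t + 1) := by
    rw [← Finset.sum_range_reflect]
    refine Finset.sum_congr rfl fun t ht => ?_
    rw [Finset.mem_range] at ht
    omega
  rw [h, Finset.sum_add_distrib, Finset.sum_const, Finset.card_range, smul_eq_mul, mul_one]
  have h2 := Finset.sum_range_id_mul_two m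
  have h3 : ((∑ i ∈ range m, i : ℕ) : ℝ) * 2 = m * (m - 1) := by
    rcases Nat.eq_zero_or_pos m with h0 | h0
    · subst h0; simp
    · have : ((∑ i ∈ range m, i : ℕ) : ℝ) * 2 = ((m * (m - 1) : ℕ) : ℝ) := by exact_mod_cast h2
      rw [this, Nat.cast_mul, Nat.cast_sub h0, Nat.cast_one]
  push_cast at h3 ⊢
  linarith

theorem no_data {d : ℤ} (hd0 : 0 ≤ d) (hns : ∀ n : ℤ, d ≠ n * n) (L q V lam Lam : ℕ)
    (θ δ γ : ℤ√d) (hθ : (2 : ℤ√d) ∣ θ - 1) (h : (2 : ℤ√d) ^ V ∣ δ - γ * θ ^ q)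
    (hL : 16 ≤ L) (hlam : 1 ≤ lam) (hLam : 1 ≤ Lam)
    (hV : 288 * Lam * lam * L ^ 2 ≤ V) (hq : 16 * Lam * L ≤ q)
    (hθ1 : 1 < Zsqrtd.toReal hd0 θ) (hδ : δ ≠ 0) (hγ : γ ≠ 0)
    (b1 : |Zsqrtd.toReal hd0 θ| ≤ Real.exp lam) (b2 : |toReal2 hd0 θ| ≤ Real.exp lam)
    (b3 : |Zsqrtd.toReal hd0 δ| ≤ Real.exp Lam) (b4 : |toReal2 hd0 δ| ≤ Real.exp Lam)
    (b5 : |Zsqrtd.toReal hd0 γ| ≤ Real.exp Lam) (b6 : |toReal2 hd0 γ| ≤ Real.exp Lam)
    (hY : Real.exp 1 * (1 + q / (16 * Lam)) ≤ Real.exp (L / 8)) : False := by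
  set K : ℕ := 288 * Lam * lam * L with hK
  set S : ℕ := 18 * L * lam with hS
  set R2 : ℕ := 16 * Lam * L with hR2
  have hL0 : 0 < L := by omega
  have hKpos : 0 < K := by rw [hK]; positivity
  have hKL : K * L = 288 * Lam * lam * L ^ 2 := by rw [hK]; ring
  have hRS : R2 * S = K * L := by rw [hK, hS, hR2]; ring
  have hlamR : (1 : ℝ) ≤ lam := by exact_mod_cast hlam
  have hLamR : (1 : ℝ) ≤ Lam := by exact_mod_cast hLam
  have hLR : (16 : ℝ) ≤ L := by exact_mod_cast hL
  set Y : ℝ := Real.exp (L / 8) ^ K with hYdef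
  have hmain := main_ineq hd0 hns K L q V R2 S θ δ γ hθ h (by omega) hq (by
      rw [hRS, mul_comm K L]
      exact Nat.mul_lt_mul_of_pos_left (by omega) hL0) hθ1 hδ hγ (Real.exp lam) (Real.exp Lam) Y
    (Real.one_le_exp (by positivity)) (Real.one_le_exp (by positivity)) (by positivity)
    b1 b2 b3 b4 b5 b6 (by
      intro x k hx hk
      have h1 := choose_le_pow x k K (1 + q / (16 * Lam)) (by
        have : (0 : ℝ) ≤ (q : ℝ) / (16 * Lam) := by positivity
        linarith) hk.le (by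
        have hx' : (x : ℝ) ≤ ((R2 + L + S * q : ℕ) : ℝ) := by exact_mod_cast hx.le
        refine hx'.trans ?_
        rw [hR2, hS, hK]
        push_cast
        have e1 : (1 + (q : ℝ) / (16 * Lam)) * (288 * Lam * lam * L)
            = 288 * Lam * lam * L + 18 * L * lam * q := by
          field_simp
          ring
        rw [e1]
        have e2 : (16 : ℝ) * Lam * L + L ≤ 288 * Lam * lam * L := by
          have e3 : (L : ℝ) ≤ Lam * L := le_mul_of_one_le_left (by positivity) hLamR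
          have e4 : (Lam : ℝ) * L ≤ Lam * lam * L := by
            have : (Lam : ℝ) ≤ Lam * lam := le_mul_of_one_le_right (by positivity) hlamR
            exact mul_le_mul_of_nonneg_right this (by positivity)
          nlinarith
        linarith)
      exact h1.trans (pow_le_pow_left₀ (by positivity) hY K))
  -- take logarithms
  set N : ℕ := K * L with hN
  have hN1 : 73728 ≤ N := by
    rw [hKL]
    have e1 : 1 ≤ Lam * lam := Nat.mul_pos hLam hlam
    have e2 : 256 ≤ L ^ 2 := by nlinarith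
    calc 73728 = 288 * 1 * 256 := by norm_num
      _ ≤ 288 * (Lam * lam) * L ^ 2 :=
          Nat.mul_le_mul (Nat.mul_le_mul_left _ e1) e2
      _ = _ := by ring
  have hNpos : 0 < N := by omega
  have hNR : (73728 : ℝ) ≤ N := by exact_mod_cast hN1
  have hNR0 : (0 : ℝ) < N := by linarith
  have hfact : ((N.factorial : ℕ) : ℝ) ≤ (N : ℝ) ^ N := by exact_mod_cast Nat.factorial_le_pow N
  have hN_exp : (N : ℝ) = Real.exp (Real.log N) := (Real.exp_log hNR0).symm
  have hinner : Y * Real.exp lam ^ (L * (R2 + L)) * Real.exp Lam ^ (L * S)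
      = Real.exp (K * (L / 8) + (L * (R2 + L) : ℕ) * lam + (L * S : ℕ) * Lam) := by
    rw [hYdef, ← Real.exp_nat_mul, ← Real.exp_nat_mul, ← Real.exp_nat_mul, ← Real.exp_add,
      ← Real.exp_add]
  have hrhs : (((N.factorial : ℕ) : ℝ) *
      (Y * Real.exp lam ^ (L * (R2 + L)) * Real.exp Lam ^ (L * S)) ^ N) ^ 2
      ≤ Real.exp (2 * N * (Real.log N +
        (K * (L / 8) + (L * (R2 + L) : ℕ) * lam + (L * S : ℕ) * Lam))) := by
    rw [hinner, ← Real.exp_nat_mul]
    have e1 : (N : ℝ) ^ N = Real.exp (N * Real.log N) := by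
      rw [Real.exp_nat_mul, Real.exp_log hNR0]
    calc (((N.factorial : ℕ) : ℝ) * Real.exp (N *
          (K * (L / 8) + (L * (R2 + L) : ℕ) * lam + (L * S : ℕ) * Lam))) ^ 2
        ≤ ((N : ℝ) ^ N * Real.exp (N *
          (K * (L / 8) + (L * (R2 + L) : ℕ) * lam + (L * S : ℕ) * Lam))) ^ 2 := by
          apply pow_le_pow_left₀ (by positivity)
          exact mul_le_mul_of_nonneg_right hfact (by positivity)
      _ = _ := by
          rw [e1, ← Real.exp_add, ← Real.exp_nat_mul]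
          congr 1
          push_cast
          ring
  have h4 : (4 : ℝ) ^ (∑ t ∈ range (N - K), (N - K - t))
      = Real.exp ((∑ t ∈ range (N - K), (N - K - t) : ℕ) * Real.log 4) := by
    rw [Real.exp_nat_mul, Real.exp_log (by norm_num)]
  have h5 := hmain.trans hrhs
  rw [h4, Real.exp_le_exp] at h5
  -- the numbers
  have hKN : K ≤ N := by rw [hN]; exact Nat.le_mul_of_pos_right _ hL0
  have hgs := gauss_sum (N - K)
  have hNK : ((N - K : ℕ) : ℝ) = N - K := by rw [Nat.cast_sub hKN]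
  have hNKL : (N : ℝ) = K * L := by rw [hN]; push_cast; ring
  have hK16 : (K : ℝ) ≤ N / 16 := by
    rw [hNKL]
    have : (0 : ℝ) ≤ K := by positivity
    nlinarith
  have hG : (225 / 256 : ℝ) * N ^ 2 / 2 ≤ ((∑ t ∈ range (N - K), (N - K - t) : ℕ) : ℝ) := by
    have e1 : (15 / 16 : ℝ) * N ≤ ((N - K : ℕ) : ℝ) := by rw [hNK]; linarith
    have e2 : (15 / 16 : ℝ) * N * ((15 / 16 : ℝ) * N) ≤ ((N - K : ℕ) : ℝ) * (((N - K : ℕ) : ℝ) + 1) := by
      apply mul_le_mul e1 (by linarith) (by positivity) (by positivity)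
    nlinarith
  have hlog4 : (1.386 : ℝ) ≤ Real.log 4 := by
    have : (4 : ℝ) = 2 ^ 2 := by norm_num
    rw [this, Real.log_pow]
    have := Real.log_two_gt_d9
    push_cast
    linarith
  have hlogN : Real.log N ≤ N / 32 := by
    have e1 : Real.log N ≤ 2 * √(N : ℝ) := by
      have e2 : Real.log √(N : ℝ) ≤ √(N : ℝ) - 1 :=
        Real.log_le_sub_one_of_pos (Real.sqrt_pos.2 hNR0)
      rw [Real.log_sqrt hNR0.le] at e2
      linarith
    have e3 : (64 : ℝ) ≤ √(N : ℝ) := by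
      apply Real.le_sqrt_of_sq_le
      norm_num
      linarith
    have e4 : √(N : ℝ) * √(N : ℝ) = N := Real.mul_self_sqrt hNR0.le
    nlinarith
  have hterm : (K : ℝ) * (L / 8) + (L * (R2 + L) : ℕ) * lam + (L * S : ℕ) * Lam
      ≤ N * (1 / 8 + 17 / 288 + 18 / 288) := by
    have e0 : (N : ℝ) = 288 * Lam * lam * L ^ 2 := by
      have : N = 288 * Lam * lam * L ^ 2 := hKL
      rw [this]; push_cast; ring
    have e1 : (K : ℝ) * (L / 8) = N / 8 := by rw [hNKL]; ring
    rw [e1, hR2, hS]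
    push_cast
    have e2 : (L : ℝ) * (16 * Lam * L + L) * lam ≤ L * (17 * Lam * L) * lam := by
      apply mul_le_mul_of_nonneg_right _ (by positivity)
      apply mul_le_mul_of_nonneg_left _ (by positivity)
      have e3 : (L : ℝ) ≤ Lam * L := le_mul_of_one_le_left (by positivity) hLamR
      linarith
    have e4 : (L : ℝ) * (17 * Lam * L) * lam = N * (17 / 288) := by rw [e0]; ring
    have e5 : (L : ℝ) * (18 * L * lam) * Lam = N * (18 / 288) := by rw [e0]; ring
    rw [e5]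
    linarith
  have h6 : (225 / 256 : ℝ) * N ^ 2 / 2 * 1.386 ≤
      2 * N * (N / 32 + N * (1 / 8 + 17 / 288 + 18 / 288)) := by
    calc (225 / 256 : ℝ) * N ^ 2 / 2 * 1.386
        ≤ ((∑ t ∈ range (N - K), (N - K - t) : ℕ) : ℝ) * Real.log 4 :=
          mul_le_mul hG hlog4 (by norm_num) (by positivity)
      _ ≤ _ := h5
      _ ≤ _ := by
          apply mul_le_mul_of_nonneg_left _ (by positivity)
          linarith
  nlinarith [mul_pos hNR0 hNR0]

end Pool.Agent.GapA
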