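import Pool.Agent.GapA.Core
import Pool.Agent.FactCons.Count

/-!
# The parameters for factorials
-/

namespace Pool.Agent.GapA

open Finset

theorem prod_Icc_factorial (n h : ℕ) :
    (n + h).factorial = (∏ i ∈ Icc (n + 1) (n + h), i) * n.factorial := by
  induction h with
  | zero => simp
  | succ h ih =>
    rw [← add_assoc, Nat.factorial_succ, ih, Finset.prod_Icc_succ_top (by omega)]
    ring

theorem log_factorial_ge (n : ℕ) (hn : 1 ≤ n) :
    (n : ℝ) * Real.log n - n ≤ Real.log (n.factorial : ℝ) := by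
  have h1 := Real.pow_div_factorial_le_exp (n : ℝ) (Nat.cast_nonneg n) n
  have hf : (0 : ℝ) < (n.factorial : ℝ) := by exact_mod_cast Nat.factorial_pos n
  have hn0 : (0 : ℝ) < n := by exact_mod_cast hn
  have h2 := Real.log_le_log (by positivity) h1
  rw [Real.log_div (by positivity) hf.ne', Real.log_pow, Real.log_exp] at h2
  linarith

/-- The real inequalities. -/
theorem real_ineqs (n ll l P : ℝ) (hll : 10 ≤ ll) (hl : Real.exp ll = l)
    (hn : Real.exp l = n) (hP1 : 1 ≤ P) (hP : P ≤ 36 * (n / (10 ^ 8 * ll ^ 2)))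
    (L : ℕ) (hL : L = ⌈8 * (1 + Real.log (1 + n * l / (8 * P)))⌉₊ + 16) :
    288 * P * L ^ 2 ≤ n / 2 ∧
      Real.exp 1 * (1 + n * l / (8 * P)) ≤ Real.exp ((L : ℝ) / 8) := by
  have hl0 : 0 < l := by rw [← hl]; exact Real.exp_pos _
  have hn0 : 0 < n := by rw [← hn]; exact Real.exp_pos _
  have hP0 : 0 < P := by linarith
  have hlogl : Real.log l = ll := by rw [← hl, Real.log_exp]
  have hlogn : Real.log n = l := by rw [← hn, Real.log_exp]
  have hlbig : 20808 ≤ l := by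
    rw [← hl]
    have h1 : Real.exp 10 ≤ Real.exp ll := Real.exp_le_exp.2 hll
    have h2 : (2.71 : ℝ) ^ 10 ≤ Real.exp 10 := by
      have : Real.exp 10 = Real.exp 1 ^ 10 := by rw [← Real.exp_nat_mul]; norm_num
      rw [this]
      exact pow_le_pow_left₀ (by norm_num) (by have := Real.exp_one_gt_d9; linarith) _
    have h3 : (20808 : ℝ) ≤ 2.71 ^ 10 := by norm_num
    linarith
  have hlll : ll ≤ l := by
    rw [← hl]
    have := Real.add_one_le_exp ll
    linarith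
  set W : ℝ := n * l / (8 * P) with hW
  have hW0 : 0 ≤ W := by positivity
  have hlogW0 : 0 ≤ Real.log (1 + W) := Real.log_nonneg (by linarith)
  have hLle : (L : ℝ) ≤ 25 + 8 * Real.log (1 + W) := by
    rw [hL]
    push_cast
    have := Nat.ceil_lt_add_one (show 0 ≤ 8 * (1 + Real.log (1 + W)) by positivity)
    linarith
  have hLge : 8 * (1 + Real.log (1 + W)) ≤ (L : ℝ) := by
    rw [hL]
    push_cast
    have := Nat.le_ceil (8 * (1 + Real.log (1 + W)))
    linarith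
  have hL0 : (0 : ℝ) ≤ L := Nat.cast_nonneg L
  constructor
  · by_cases hcase : W ≤ l ^ 4
    · have h1 : Real.log (1 + W) ≤ 5 * ll := by
        have e1 : 1 + W ≤ l ^ 5 := by
          have : 1 ≤ l ^ 4 := one_le_pow₀ (by linarith)
          have e2 : l ^ 5 = l * l ^ 4 := by ring
          nlinarith
        calc Real.log (1 + W) ≤ Real.log (l ^ 5) := Real.log_le_log (by linarith) e1
          _ = 5 * ll := by rw [Real.log_pow, hlogl]; norm_num
      have h2 : (L : ℝ) ≤ 50 * ll := by linarith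
      have h3 : (L : ℝ) ^ 2 ≤ 2500 * ll ^ 2 := by nlinarith
      have h4 : P * ll ^ 2 ≤ 36 * n / 10 ^ 8 := by
        have e1 : 36 * (n / (10 ^ 8 * ll ^ 2)) * ll ^ 2 = 36 * n / 10 ^ 8 := by
          field_simp
        rw [← e1]
        exact mul_le_mul_of_nonneg_right hP (by positivity)
      calc 288 * P * (L : ℝ) ^ 2 ≤ 288 * P * (2500 * ll ^ 2) :=
            mul_le_mul_of_nonneg_left h3 (by positivity)
        _ = 720000 * (P * ll ^ 2) := by ring
        _ ≤ 720000 * (36 * n / 10 ^ 8) := mul_le_mul_of_nonneg_left h4 (by norm_num)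
        _ ≤ n / 2 := by linarith
    · push Not at hcase
      have h1 : P * (8 * l ^ 3) ≤ n := by
        have e1 : l ^ 4 * (8 * P) ≤ n * l := by
          rw [hW, lt_div_iff₀ (by positivity)] at hcase
          exact hcase.le
        have e2 : (P * (8 * l ^ 3)) * l ≤ n * l := by
          calc (P * (8 * l ^ 3)) * l = l ^ 4 * (8 * P) := by ring
            _ ≤ _ := e1
        exact le_of_mul_le_mul_right e2 hl0
      have h2 : Real.log (1 + W) ≤ 2 * l := by
        have e1 : 1 + W ≤ n * l := by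
          have e2 : W ≤ n * l / 8 := by
            rw [hW]
            apply div_le_div_of_nonneg_left (by positivity) (by norm_num)
            linarith
          have e3 : 8 ≤ n * l := by
            have : 1 ≤ n := by rw [← hn]; exact Real.one_le_exp hl0.le
            nlinarith
          linarith
        calc Real.log (1 + W) ≤ Real.log (n * l) := Real.log_le_log (by linarith) e1
          _ = l + ll := by rw [Real.log_mul hn0.ne' hl0.ne', hlogl, hlogn]
          _ ≤ 2 * l := by linarith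
      have h3 : (L : ℝ) ≤ 17 * l := by linarith
      have h4 : (L : ℝ) ^ 2 ≤ 289 * l ^ 2 := by nlinarith
      have h5 : 288 * P * (289 * l ^ 2) * l ≤ 10404 * n := by
        calc 288 * P * (289 * l ^ 2) * l = 10404 * (P * (8 * l ^ 3)) := by ring
          _ ≤ _ := mul_le_mul_of_nonneg_left h1 (by norm_num)
      have h6 : 288 * P * (L : ℝ) ^ 2 ≤ 288 * P * (289 * l ^ 2) :=
        mul_le_mul_of_nonneg_left h4 (by positivity)
      have h7 : 288 * P * (L : ℝ) ^ 2 * l ≤ n / 2 * l := by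
        calc 288 * P * (L : ℝ) ^ 2 * l ≤ 288 * P * (289 * l ^ 2) * l :=
              mul_le_mul_of_nonneg_right h6 hl0.le
          _ ≤ 10404 * n := h5
          _ ≤ n / 2 * l := by nlinarith
      exact le_of_mul_le_mul_right h7 hl0
  · have h1 : Real.exp 1 * (1 + W) = Real.exp (1 + Real.log (1 + W)) := by
      rw [Real.exp_add, Real.exp_log (by linarith)]
    rw [h1]
    apply Real.exp_le_exp.2
    linarith

theorem pell_sizes (x y ρ s : ℝ) (hρ : 2 ≤ ρ) (hy : 1 ≤ y) (hx : 0 ≤ x) (hs : s * s = ρ)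
    (hs0 : 0 ≤ s) (hxy : x ^ 2 = ρ * y ^ 2 + 1) :
    1 < x ∧ y * s ≤ x ∧ 3 ≤ (x + y * s) ^ 2 := by
  have h1 : 2 * 1 ≤ ρ * y ^ 2 := mul_le_mul hρ (one_le_pow₀ hy) (by norm_num) (by linarith)
  have h2 : 3 ≤ x ^ 2 := by linarith
  have h3 : 1 < x := by
    by_contra hcon
    push Not at hcon
    have := mul_le_mul hcon hcon hx (by norm_num)
    nlinarith
  have h4 : y * s ≤ x := by
    apply le_of_sq_le_sq _ hx
    rw [mul_pow, sq s, hs, hxy]
    nlinarith
  have h5 : 0 ≤ y * s := mul_nonneg (by linarith) hs0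
  refine ⟨h3, h4, ?_⟩
  calc 3 ≤ x ^ 2 := h2
    _ ≤ (x + y * s) ^ 2 := pow_le_pow_left₀ hx (by linarith) 2

theorem sum_le_sq (x u : ℝ) (hx : 2 ≤ x) (hu : u ≤ x) : x + u ≤ x ^ 2 := by nlinarith

theorem logρ_bound (X n r ll : ℝ) (hX : 0.69 ≤ X) (hr : 0 < r) (hn : 0 < n) (hll : 10 ≤ ll)
    (hx : X * (X + r) ≤ n / (10 ^ 8 * ll ^ 2)) : r ≤ n := by
  have h1 : X * r ≤ n / (10 ^ 8 * ll ^ 2) := by
    refine le_trans ?_ hx
    apply mul_le_mul_of_nonneg_left _ (by linarith)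
    linarith
  have h2 : n / (10 ^ 8 * ll ^ 2) ≤ n / 100 := by
    apply div_le_div_of_nonneg_left hn.le (by norm_num)
    nlinarith
  nlinarith

theorem H_bounds (a b ρ s f H : ℝ) (ha : 0 ≤ a) (hb : 0 ≤ b) (hρ : 2 ≤ ρ) (hs : s * s = ρ)
    (hs0 : 0 ≤ s) (hf : 1 ≤ f) (haf : f = a * (a + 1)) (hab : b * (b + 1) = ρ * (a * (a + 1)))
    (hH : H = (2 * b + 1) + (2 * a + 1) * s) : 0 < H ∧ f ≤ H ^ 2 ∧ H ^ 2 ≤ 20 * (ρ * f) := by
  have hB2 : (2 * b + 1) ^ 2 = 4 * (ρ * f) + 1 := by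
    rw [haf]; linear_combination 4 * hab
  have hA2 : ((2 * a + 1) * s) ^ 2 = 4 * (ρ * f) + ρ := by
    rw [mul_pow, sq s, hs, haf]; ring
  have h0 : 0 ≤ (2 * a + 1) * s := mul_nonneg (by linarith) hs0
  have hρf : ρ ≤ ρ * f := le_mul_of_one_le_right (by linarith) hf
  have hρf2 : 2 * f ≤ ρ * f := mul_le_mul_of_nonneg_right hρ (by linarith)
  refine ⟨by rw [hH]; linarith, ?_, ?_⟩
  · have h1 : (2 * b + 1) ^ 2 ≤ H ^ 2 := by
      apply pow_le_pow_left₀ (by linarith)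
      rw [hH]; linarith
    linarith
  · have h1 : H ^ 2 ≤ 2 * ((2 * b + 1) ^ 2 + ((2 * a + 1) * s) ^ 2) := by
      rw [hH]
      have := sq_nonneg ((2 * b + 1) - (2 * a + 1) * s)
      linarith [this, add_sq (2 * b + 1) ((2 * a + 1) * s), sub_sq (2 * b + 1) ((2 * a + 1) * s)]
    linarith

theorem final_sum (P L lam Lam : ℝ) (hL : 16 ≤ L) (hlam : 1 ≤ lam) (hLam : 1 ≤ Lam)
    (hP : P = Lam * lam) : (16 * Lam * L + 1) * lam ≤ 288 * P * L ^ 2 := by
  have h1 : lam ≤ P := by rw [hP]; exact le_mul_of_one_le_left (by linarith) hLam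
  have hP0 : 0 ≤ P := by linarith
  have h2 : (16 * Lam * L + 1) * lam = 16 * (P * L) + lam := by rw [hP]; ring
  have h3 : P ≤ P * L := le_mul_of_one_le_right hP0 (by linarith)
  have h4 : P * L ≤ P * L ^ 2 := by
    apply mul_le_mul_of_nonneg_left _ hP0
    nlinarith
  rw [h2]
  linarith [mul_nonneg hP0 (sq_nonneg L)]

theorem logn_facts (n : ℕ) (l : ℝ) (hn : 1 ≤ n) (hl : l = Real.log n) (hl11 : 11 ≤ l) :
    10 * (n : ℝ) ≤ Real.log (n.factorial : ℝ) ∧ Real.log (n.factorial : ℝ) ≤ n * l ∧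
      11 * (n : ℝ) ≤ n * l := by
  have h1 := log_factorial_ge n hn
  have h2 := Pool.Agent.FactCons.log_fact_le n hn
  have h3 : (n : ℝ) * 11 ≤ n * l := mul_le_mul_of_nonneg_left hl11 (Nat.cast_nonneg n)
  rw [← hl] at h1 h2
  exact ⟨by linarith, h2, by linarith⟩

theorem no_pair' (n x y a b ρ : ℕ) (hn : 10 ≤ Real.log (Real.log n)) (hy : 1 ≤ y) (hρ2 : 2 ≤ ρ)
    (hxy : x ^ 2 = ρ * y ^ 2 + 1)
    (hx : Real.log x * Real.log (x * (ρ : ℝ)) ≤ n / (10 ^ 8 * (Real.log (Real.log n)) ^ 2))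
    (ha : n.factorial = a * (a + 1)) (hab : b * (b + 1) = ρ * (a * (a + 1))) : False := by
  obtain ⟨l, hl⟩ : ∃ l : ℝ, l = Real.log n := ⟨_, rfl⟩
  obtain ⟨ll, hll⟩ : ∃ ll : ℝ, ll = Real.log l := ⟨_, rfl⟩
  rw [← hl, ← hll] at hn hx
  -- sizes
  have hl0' : 0 ≤ l := by rw [hl]; exact Real.log_natCast_nonneg n
  have hl0 : 0 < l := by
    rcases hl0'.lt_or_eq with h3 | h3
    · exact h3
    · rw [hll, ← h3, Real.log_zero] at hn
      norm_num at hn
  have hexpll : Real.exp ll = l := by rw [hll]; exact Real.exp_log hl0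
  have hl11 : 11 ≤ l := by
    rw [← hexpll]
    have := Real.add_one_le_exp ll
    linarith
  have hnpos : 0 < (n : ℝ) := by
    rcases Nat.eq_zero_or_pos n with h3 | h3
    · rw [hl, h3] at hl0
      norm_num at hl0
    · exact_mod_cast h3
  have hexpl : Real.exp l = n := by rw [hl]; exact Real.exp_log hnpos
  have hn1 : 1 ≤ n := by exact_mod_cast hnpos
  have hnN : 12 ≤ n := by
    have hnbig : (12 : ℝ) ≤ n := by
      rw [← hexpl]
      have := Real.add_one_le_exp l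
      linarith
    exact_mod_cast hnbig
  have hρR : (2 : ℝ) ≤ ρ := by exact_mod_cast hρ2
  have hyR : (1 : ℝ) ≤ y := by exact_mod_cast hy
  have hxyR : (x : ℝ) ^ 2 = ρ * y ^ 2 + 1 := by exact_mod_cast hxy
  have hss : √(ρ : ℝ) * √(ρ : ℝ) = ρ := Real.mul_self_sqrt (by positivity)
  have hs0 : 0 ≤ √(ρ : ℝ) := Real.sqrt_nonneg _
  obtain ⟨hx1, hys, ht3⟩ := pell_sizes x y ρ (√(ρ : ℝ)) hρR hyR (Nat.cast_nonneg x) hss hs0 hxyR
  have hx2 : 2 ≤ x := by
    have : 1 < x := by exact_mod_cast hx1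
    omega
  have hxR : (2 : ℝ) ≤ x := by exact_mod_cast hx2
  obtain ⟨t, ht⟩ : ∃ t : ℝ, t = ((x : ℝ) + y * √(ρ : ℝ)) ^ 2 := ⟨_, rfl⟩
  rw [← ht] at ht3
  have ht0 : 0 < t := by linarith
  have ht_le : t ≤ ((x : ℝ) ^ 2) ^ 2 := by
    rw [ht]
    exact pow_le_pow_left₀ (by positivity) (sum_le_sq _ _ hxR hys) 2
  obtain ⟨X, hX⟩ : ∃ X : ℝ, X = Real.log x := ⟨_, rfl⟩
  have hXlo : 0.69 ≤ X := by
    have h1 := Real.log_two_gt_d9
    have h2 : Real.log 2 ≤ X := by rw [hX]; exact Real.log_le_log (by norm_num) hxR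
    linarith
  have hlogt_hi : Real.log t ≤ 4 * X := by
    calc Real.log t ≤ Real.log (((x : ℝ) ^ 2) ^ 2) := Real.log_le_log ht0 ht_le
      _ = 4 * X := by rw [← pow_mul, Real.log_pow, hX]; norm_num
  have hlogt_lo : 1 ≤ Real.log t := by
    rw [Real.le_log_iff_exp_le ht0]
    have := Real.exp_one_lt_d9
    linarith
  obtain ⟨lam, hlam⟩ : ∃ lam : ℕ, lam = ⌈Real.log t⌉₊ := ⟨_, rfl⟩
  obtain ⟨Lam, hLam⟩ : ∃ Lam : ℕ, Lam = ⌈Real.log (ρ * t)⌉₊ := ⟨_, rfl⟩
  have hlam1 : Real.log t ≤ lam := by rw [hlam]; exact Nat.le_ceil _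
  have hLam1 : Real.log (ρ * t) ≤ Lam := by rw [hLam]; exact Nat.le_ceil _
  have hlam2 : (lam : ℝ) ≤ Real.log t + 1 := by
    rw [hlam]; exact (Nat.ceil_lt_add_one (by linarith)).le
  have hlogρ0 : 0 < Real.log (ρ : ℝ) := Real.log_pos (by linarith)
  have hlogρt : Real.log (ρ * t) = Real.log ρ + Real.log t :=
    Real.log_mul (by positivity) (by positivity)
  have hLam2 : (Lam : ℝ) ≤ Real.log ρ + Real.log t + 1 := by
    rw [← hlogρt, hLam]
    exact (Nat.ceil_lt_add_one (by rw [hlogρt]; linarith)).le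
  have hlamX : (lam : ℝ) ≤ 6 * X := by linarith
  have hLamX : (Lam : ℝ) ≤ 6 * (X + Real.log ρ) := by linarith
  have hlamR1 : (1 : ℝ) ≤ lam := by linarith
  have hLamR1 : (1 : ℝ) ≤ Lam := by linarith
  have hlogxρ : Real.log (x * (ρ : ℝ)) = X + Real.log ρ := by
    rw [Real.log_mul (by positivity) (by positivity), hX]
  rw [hlogxρ, ← hX] at hx
  obtain ⟨P, hP⟩ : ∃ P : ℝ, P = (Lam : ℝ) * lam := ⟨_, rfl⟩
  have hP1 : 1 ≤ P := by
    rw [hP]
    calc (1 : ℝ) = 1 * 1 := by norm_num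
      _ ≤ Lam * lam := mul_le_mul hLamR1 hlamR1 (by norm_num) (by linarith)
  have hPle : P ≤ 36 * (n / (10 ^ 8 * ll ^ 2)) := by
    calc P ≤ (6 * (X + Real.log ρ)) * (6 * X) := by
          rw [hP]
          exact mul_le_mul hLamX hlamX (by positivity) (by linarith)
      _ = 36 * (X * (X + Real.log ρ)) := by ring
      _ ≤ _ := mul_le_mul_of_nonneg_left hx (by norm_num)
  have hlogρ_le : Real.log (ρ : ℝ) ≤ n := logρ_bound X n _ ll hXlo hlogρ0 hnpos hn hx
  obtain ⟨L, hL⟩ : ∃ L : ℕ, L = ⌈8 * (1 + Real.log (1 + n * l / (8 * P)))⌉₊ + 16 := ⟨_, rfl⟩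
  obtain ⟨e1, e2⟩ := real_ineqs n ll l P hn hexpll hexpl hP1 hPle L hL
  have hL16 : 16 ≤ L := by omega
  have hLR : (16 : ℝ) ≤ L := by exact_mod_cast hL16
  obtain ⟨V, hV⟩ : ∃ V : ℕ, V = 3 * (n / 4) := ⟨_, rfl⟩
  have hVdvd : 2 ^ V ∣ a * (a + 1) := by
    rw [← ha]
    have : (2 : ℕ) ^ V = 8 ^ (n / 4) := by rw [hV, pow_mul]; norm_num
    rw [this]
    exact (Pool.Agent.FactCons.eight_pow_dvd (n / 4)).trans
      (Nat.factorial_dvd_factorial (Nat.mul_div_le n 4))
  have hVn : (n : ℝ) / 2 ≤ V + 1 := by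
    have h1 : n ≤ 2 * (V + 1) := by omega
    have h2 : (n : ℝ) ≤ 2 * (V + 1) := by exact_mod_cast h1
    linarith
  have hf1 : (1 : ℝ) ≤ (n.factorial : ℝ) := by exact_mod_cast Nat.factorial_pos n
  have hfpos : (0 : ℝ) < (n.factorial : ℝ) := by linarith
  have haR : (n.factorial : ℝ) = a * (a + 1) := by exact_mod_cast ha
  have habR : (b : ℝ) * (b + 1) = ρ * (a * (a + 1)) := by exact_mod_cast hab
  obtain ⟨H, hH⟩ : ∃ H : ℝ, H = (2 * b + 1 : ℝ) + (2 * a + 1) * √(ρ : ℝ) := ⟨_, rfl⟩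
  obtain ⟨hH0, hHlo, hHhi⟩ := H_bounds a b ρ (√(ρ : ℝ)) n.factorial H (Nat.cast_nonneg a)
    (Nat.cast_nonneg b) hρR hss hs0 hf1 haR habR hH
  obtain ⟨hf_lo, hf_hi, hnl⟩ := logn_facts n l hn1 hl hl11
  have hLH_lo : (n : ℝ) ≤ Real.log H := by
    have h1 := Real.log_le_log hfpos hHlo
    rw [Real.log_pow] at h1
    push_cast at h1
    linarith
  have hLH_hi : Real.log H ≤ n * l := by
    have h1 := Real.log_le_log (by positivity) hHhi
    rw [Real.log_pow, Real.log_mul (by norm_num) (by positivity),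
      Real.log_mul (by positivity) (by positivity)] at h1
    have h2 : Real.log 20 ≤ 19 := by
      have := Real.log_le_sub_one_of_pos (show (0 : ℝ) < 20 by norm_num)
      linarith
    have hn12 : (12 : ℝ) ≤ n := by exact_mod_cast hnN
    push_cast at h1
    linarith
  -- the conditions of `core`
  have c1 : 288 * Lam * lam * L ^ 2 ≤ V + 1 := by
    have h1 : ((288 * Lam * lam * L ^ 2 : ℕ) : ℝ) ≤ ((V + 1 : ℕ) : ℝ) := by
      push_cast
      have h2 : (288 : ℝ) * (Lam : ℝ) * (lam : ℝ) * (L : ℝ) ^ 2 = 288 * P * (L : ℝ) ^ 2 := by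
        rw [hP]; ring
      rw [h2]
      exact e1.trans hVn
    exact_mod_cast h1
  have c2 : (16 * (Lam : ℝ) * L + 1) * lam ≤ Real.log H := by
    have h1 := final_sum P L lam Lam hLR hlamR1 hLamR1 hP
    linarith
  have c3 : Real.exp 1 * (1 + Real.log H / (16 * Lam * Real.log t)) ≤ Real.exp ((L : ℝ) / 8) := by
    refine le_trans ?_ e2
    apply mul_le_mul_of_nonneg_left _ (by positivity)
    have h1 : Real.log H / (16 * Lam * Real.log t) ≤ n * l / (8 * P) := by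
      have h2 : 8 * P ≤ 16 * Lam * Real.log t := by
        have h3 : (lam : ℝ) ≤ 2 * Real.log t := by linarith
        calc 8 * P = 8 * Lam * lam := by rw [hP]; ring
          _ ≤ 8 * Lam * (2 * Real.log t) := mul_le_mul_of_nonneg_left h3 (by positivity)
          _ = _ := by ring
      calc Real.log H / (16 * Lam * Real.log t) ≤ n * l / (16 * Lam * Real.log t) :=
            div_le_div_of_nonneg_right hLH_hi (by positivity)
        _ ≤ n * l / (8 * P) :=
            div_le_div_of_nonneg_left (by positivity) (by positivity) h2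
    linarith
  exact core hρ2 x y a b V L hy hxy hab hVdvd hL16 t H ht hH lam Lam hlam1 hLam1 c1 c2 c3

theorem no_pair (n h x y a b : ℕ) (hn : 10 ≤ Real.log (Real.log n)) (hh : 1 ≤ h) (hy : 1 ≤ y)
    (hxy : x ^ 2 = (∏ i ∈ Icc (n + 1) (n + h), i) * y ^ 2 + 1)
    (hx : Real.log x * Real.log (x * ((∏ i ∈ Icc (n + 1) (n + h), i : ℕ) : ℝ))
      ≤ n / (10 ^ 8 * (Real.log (Real.log n)) ^ 2))
    (ha : n.factorial = a * (a + 1)) (hb : (n + h).factorial = b * (b + 1)) : False := by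
  have hρ2 : 2 ≤ ∏ i ∈ Icc (n + 1) (n + h), i := by
    have hn1 : 1 ≤ n := by
      rcases Nat.eq_zero_or_pos n with h3 | h3
      · rw [h3] at hn
        norm_num at hn
      · exact h3
    have h1 : (n + 1) ∣ ∏ i ∈ Icc (n + 1) (n + h), i :=
      Finset.dvd_prod_of_mem _ (Finset.mem_Icc.2 ⟨le_rfl, by omega⟩)
    have h2 : ∏ i ∈ Icc (n + 1) (n + h), i ≠ 0 := by
      rw [Finset.prod_ne_zero_iff]
      intro i hi
      rw [Finset.mem_Icc] at hi
      omega
    have := Nat.le_of_dvd (Nat.pos_of_ne_zero h2) h1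
    omega
  have hab : b * (b + 1) = (∏ i ∈ Icc (n + 1) (n + h), i) * (a * (a + 1)) := by
    rw [← hb, ← ha]; exact prod_Icc_factorial n h
  generalize (∏ i ∈ Icc (n + 1) (n + h), i) = ρ at *
  exact no_pair' n x y a b ρ hn hy hρ2 hxy hx ha hab

end Pool.Agent.GapA
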