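import Pool.Agent.GapA.Gain
import Pool.Agent.SS.Minor

/-!
# A zero estimate for the interpolation matrix
-/

namespace Pool.Agent.GapA

open Finset Matrix Polynomial

set_option linter.unusedSectionVars false

variable {F : Type*} [Field F] [CharZero F]

/-- The binomial polynomial. -/
noncomputable def cp (F : Type*) [Field F] (k : ℕ) : F[X] :=
  C ((k.factorial : F)⁻¹) * descPochhammer F k

theorem cp_eval (k x : ℕ) : (cp F k).eval (x : F) = ((x.choose k : ℕ) : F) := by
  have h : ((k.factorial : ℕ) : F) ≠ 0 := Nat.cast_ne_zero.2 (Nat.factorial_ne_zero k)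
  rw [cp, eval_mul, eval_C, descPochhammer_eval_eq_descFactorial, Nat.descFactorial_eq_factorial_mul_choose,
    Nat.cast_mul, inv_mul_cancel_left₀ h]

theorem cp_natDegree (k : ℕ) : (cp F k).natDegree ≤ k := by
  rw [cp]
  refine (natDegree_C_mul_le _ _).trans ?_
  rw [descPochhammer_natDegree]

/-- A combination of binomial polynomials which vanishes identically is trivial. -/
theorem cp_indep (K : ℕ) (v : ℕ → F) (h : ∑ k ∈ range K, C (v k) * cp F k = 0) :
    ∀ k < K, v k = 0 := by
  intro k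
  induction k using Nat.strong_induction_on with
  | _ k ih =>
    intro hk
    have h1 := congrArg (fun p => p.eval (k : F)) h
    simp only [eval_finsetSum, eval_mul, eval_C, cp_eval, eval_zero] at h1
    rw [Finset.sum_eq_single k] at h1
    · simpa using h1
    · intro j hj hjk
      rcases lt_or_gt_of_ne hjk with hlt | hgt
      · rw [ih j hlt (by omega), zero_mul]
      · rw [Nat.choose_eq_zero_of_lt hgt, Nat.cast_zero, mul_zero]
    · intro hk'
      exact absurd (Finset.mem_range.2 hk) hk'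

/-- Degree and top coefficient of a determinant of polynomials of degree `≤ d`. -/
theorem det_degree {n : ℕ} (M : Matrix (Fin n) (Fin n) F[X]) (d : ℕ)
    (h : ∀ i j, (M i j).natDegree ≤ d) :
    M.det.natDegree ≤ n * d ∧ M.det.coeff (n * d) = (Matrix.of fun i j => (M i j).coeff d).det := by
  classical
  have hprod : ∀ σ : Equiv.Perm (Fin n), (∏ i, M (σ i) i).natDegree ≤ n * d := by
    intro σ
    refine (natDegree_prod_le _ _).trans ?_
    refine (Finset.sum_le_card_nsmul _ _ d fun i _ => h _ _).trans ?_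
    simp
  constructor
  · rw [Matrix.det_apply]
    refine natDegree_sum_le_of_forall_le _ _ fun σ _ => ?_
    refine le_trans ?_ (hprod σ)
    rw [Units.smul_def]
    exact natDegree_smul_le _ _
  · rw [Matrix.det_apply, Matrix.det_apply, finsetSum_coeff]
    refine Finset.sum_congr rfl fun σ _ => ?_
    rw [Units.smul_def, Units.smul_def, coeff_smul]
    congr 1
    have := coeff_prod_of_natDegree_le (Finset.univ) (fun i => M (σ i) i) d (fun i _ => h _ _)
    rw [Finset.card_univ, Fintype.card_fin] at this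
    rw [this]
    rfl

/-- Zero estimate. -/
theorem zero_estimate (K L q R2 S : ℕ) (θ δ γ : F) (hθ : θ ≠ 0) (hδ : δ ≠ 0) (hγ : γ ≠ 0)
    (hinj : ∀ l l', l < L → l' < L → θ ^ l = θ ^ l' → l = l') (hq : R2 ≤ q)
    (hRS : L * (K - 1) < R2 * S) (v : ℕ → ℕ → F)
    (hv : ∀ r < R2 + L, ∀ s < S, ∑ l ∈ range L, ∑ k ∈ range K, v k l * ent L q θ δ γ k l r s = 0) :
    ∀ l < L, ∀ k < K, v k l = 0 := by
  classical
  set P : ℕ → F[X] := fun l => ∑ k ∈ range K, C (v k l) * cp F k with hP
  have hPdeg : ∀ l, (P l).natDegree ≤ K - 1 := by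
    intro l
    refine natDegree_sum_le_of_forall_le _ _ fun k hk => ?_
    rw [Finset.mem_range] at hk
    exact ((natDegree_C_mul_le _ _).trans (cp_natDegree k)).trans (by omega)
  by_contra hcon
  push Not at hcon
  obtain ⟨l0, hl0, k0, hk0, hne⟩ := hcon
  set Λ : Finset ℕ := (range L).filter (fun l => P l ≠ 0) with hΛ
  have hl0Λ : l0 ∈ Λ := by
    rw [hΛ, Finset.mem_filter]
    refine ⟨Finset.mem_range.2 hl0, fun h0 => hne ?_⟩
    exact cp_indep K (fun k => v k l0) h0 k0 hk0
  set n : ℕ := Λ.card with hn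
  have hnpos : 0 < n := Finset.card_pos.2 ⟨l0, hl0Λ⟩
  have hnL : n ≤ L := by
    have := Finset.card_le_card (Finset.filter_subset (fun l => P l ≠ 0) (range L))
    rwa [Finset.card_range] at this
  let e : Fin n ≃ Λ := (Λ.equivFin).symm
  let ll : Fin n → ℕ := fun m => (e m : ℕ)
  have hllL : ∀ m, ll m < L := fun m => by
    have := Finset.mem_filter.1
      (show (e m : ℕ) ∈ (range L).filter (fun l => P l ≠ 0) from (e m).2)
    exact Finset.mem_range.1 this.1
  have hllP : ∀ m, P (ll m) ≠ 0 := fun m => by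
    have := Finset.mem_filter.1
      (show (e m : ℕ) ∈ (range L).filter (fun l => P l ≠ 0) from (e m).2)
    exact this.2
  have hllinj : Function.Injective ll := fun m m' h => e.injective (Subtype.ext h)
  let M : Matrix (Fin n) (Fin n) F[X] := Matrix.of fun i m =>
    (P (ll m)).comp (X + C ((i : ℕ) : F)) * C ((θ ^ (ll m)) ^ (i : ℕ))
  let M' : Matrix (Fin n) (Fin n) F[X] := Matrix.of fun i m =>
    X ^ (K - 1 - (P (ll m)).natDegree) * M i m
  have hMdeg : ∀ i m, (M i m).natDegree ≤ (P (ll m)).natDegree := by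
    intro i m
    have h1 : ((P (ll m)).comp (X + C ((i : ℕ) : F))).natDegree = (P (ll m)).natDegree := by
      rw [natDegree_comp, natDegree_X_add_C, mul_one]
    exact (natDegree_mul_C_le _ _).trans (le_of_eq h1)
  have hM'deg : ∀ i m, (M' i m).natDegree ≤ K - 1 := by
    intro i m
    change (X ^ (K - 1 - (P (ll m)).natDegree) * M i m).natDegree ≤ K - 1
    refine natDegree_mul_le.trans ?_
    have h1 := hMdeg i m
    have h2 := hPdeg (ll m)
    rw [natDegree_X_pow]
    omega
  have hM'coeff : ∀ i m, (M' i m).coeff (K - 1)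
      = (P (ll m)).leadingCoeff * (θ ^ (ll m)) ^ (i : ℕ) := by
    intro i m
    change (X ^ (K - 1 - (P (ll m)).natDegree) * M i m).coeff (K - 1) = _
    have h2 := hPdeg (ll m)
    have h3 : K - 1 = (P (ll m)).natDegree + (K - 1 - (P (ll m)).natDegree) := by omega
    conv_lhs => rw [h3]
    have h4 : (P (ll m)).natDegree + (K - 1 - (P (ll m)).natDegree) - (P (ll m)).natDegree
        = K - 1 - (P (ll m)).natDegree := by omega
    rw [h4, coeff_X_pow_mul]
    change ((P (ll m)).comp (X + C ((i : ℕ) : F)) * C ((θ ^ (ll m)) ^ (i : ℕ))).coeff _ = _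
    rw [coeff_mul_C]
    congr 1
    have h5 : ((P (ll m)).comp (X + C ((i : ℕ) : F))).natDegree = (P (ll m)).natDegree := by
      rw [natDegree_comp, natDegree_X_add_C, mul_one]
    have h6 : ((P (ll m)).comp (X + C ((i : ℕ) : F))).coeff (P (ll m)).natDegree
        = ((P (ll m)).comp (X + C ((i : ℕ) : F))).leadingCoeff := by
      rw [leadingCoeff, h5]
    rw [h6, leadingCoeff_comp (by rw [natDegree_X_add_C]; exact one_ne_zero),
      leadingCoeff_X_add_C, one_pow, mul_one]
  have hdet' := det_degree M' (K - 1) hM'deg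
  have hdetM' : M'.det = (∏ m, X ^ (K - 1 - (P (ll m)).natDegree)) * M.det :=
    Matrix.det_mul_row (fun m => X ^ (K - 1 - (P (ll m)).natDegree)) M
  have hcoef : M'.det.coeff (n * (K - 1)) ≠ 0 := by
    rw [hdet'.2]
    have h1 : (Matrix.of fun i m => (M' i m).coeff (K - 1))
        = Matrix.of fun (i m : Fin n) => (P (ll m)).leadingCoeff *
          ((Matrix.vandermonde fun m : Fin n => θ ^ (ll m))ᵀ i m) := by
      ext i m
      rw [Matrix.of_apply, hM'coeff]
      rfl
    rw [h1]
    have h2 := Matrix.det_mul_row (fun m : Fin n => (P (ll m)).leadingCoeff)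
      ((Matrix.vandermonde fun m : Fin n => θ ^ (ll m))ᵀ)
    rw [h2, Matrix.det_transpose]
    refine mul_ne_zero (Finset.prod_ne_zero_iff.2 fun m _ => leadingCoeff_ne_zero.2 (hllP m)) ?_
    rw [Matrix.det_vandermonde_ne_zero_iff]
    intro m m' h
    exact hllinj (hinj _ _ (hllL m) (hllL m') h)
  have hM'ne : M'.det ≠ 0 := fun h0 => hcoef (by rw [h0, coeff_zero])
  have hMne : M.det ≠ 0 := fun h0 => hM'ne (by rw [hdetM', h0, mul_zero])
  have hMdet_deg : M.det.natDegree ≤ L * (K - 1) := by
    have h1 : M.det ∣ M'.det := ⟨_, by rw [hdetM', mul_comm]⟩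
    exact ((natDegree_le_of_dvd h1 hM'ne).trans hdet'.1).trans (Nat.mul_le_mul_right _ hnL)
  -- the zeros
  let Z : Finset F := ((range R2) ×ˢ (range S)).image (fun z => ((z.1 + z.2 * q : ℕ) : F))
  have hZcard : Z.card = R2 * S := by
    rw [Finset.card_image_of_injOn, Finset.card_product, Finset.card_range, Finset.card_range]
    intro z hz z' hz' h
    simp only [Finset.coe_product, Finset.coe_range, Set.mem_prod, Set.mem_Iio] at hz hz'
    have h1 : z.1 + z.2 * q = z'.1 + z'.2 * q := Nat.cast_injective h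
    have hzq : z.1 < q := lt_of_lt_of_le hz.1 hq
    have hzq' : z'.1 < q := lt_of_lt_of_le hz'.1 hq
    have hq0 : 0 < q := by omega
    have h2 : z.2 = z'.2 := by
      have e1 : (z.1 + z.2 * q) / q = z.2 := by
        rw [Nat.add_mul_div_right _ _ hq0, Nat.div_eq_of_lt hzq, zero_add]
      have e2 : (z'.1 + z'.2 * q) / q = z'.2 := by
        rw [Nat.add_mul_div_right _ _ hq0, Nat.div_eq_of_lt hzq', zero_add]
      rw [← e1, ← e2, h1]
    rw [h2] at h1
    exact Prod.ext (by omega) h2
  apply hMne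
  apply eq_zero_of_natDegree_lt_card_of_eval_eq_zero' M.det Z
  · intro x hx
    rw [Finset.mem_image] at hx
    obtain ⟨⟨r0, s⟩, hrs, rfl⟩ := hx
    rw [Finset.mem_product, Finset.mem_range, Finset.mem_range] at hrs
    have h1 : M.det.eval ((r0 + s * q : ℕ) : F)
        = (M.map (eval ((r0 + s * q : ℕ) : F))).det := by
      have := RingHom.map_det (evalRingHom ((r0 + s * q : ℕ) : F)) M
      exact this
    rw [h1]
    rw [← Matrix.exists_mulVec_eq_zero_iff]
    refine ⟨fun m => θ ^ (ll m * r0) * δ ^ (ll m * s) * γ ^ ((L - 1 - ll m) * s), ?_, ?_⟩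
    · intro h0
      have := congrFun h0 ⟨0, hnpos⟩
      simp only [Pi.zero_apply] at this
      exact (mul_ne_zero (mul_ne_zero (pow_ne_zero _ hθ) (pow_ne_zero _ hδ)) (pow_ne_zero _ hγ)) this
    · ext i
      rw [Pi.zero_apply]
      have hr : r0 + (i : ℕ) < R2 + L := by
        have := i.isLt
        omega
      have h2 := hv (r0 + i) hr s hrs.2
      have h3 : ∀ l, ∑ k ∈ range K, v k l * ent L q θ δ γ k l (r0 + i) s
          = (P l).eval (((r0 + s * q : ℕ) : F) + ((i : ℕ) : F)) * θ ^ (l * (i : ℕ)) *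
            (θ ^ (l * r0) * δ ^ (l * s) * γ ^ ((L - 1 - l) * s)) := by
        intro l
        have h4 : (((r0 + s * q : ℕ) : F) + ((i : ℕ) : F)) = ((r0 + (i : ℕ) + s * q : ℕ) : F) := by
          push_cast
          ring
        rw [h4, hP, eval_finsetSum, Finset.sum_mul, Finset.sum_mul]
        refine Finset.sum_congr rfl fun k _ => ?_
        rw [eval_mul, eval_C, cp_eval, ent, mul_add l r0 (i : ℕ), pow_add]
        ring
      rw [Finset.sum_congr rfl fun l _ => h3 l] at h2
      rw [Matrix.mulVec, dotProduct]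
      rw [← Finset.sum_filter_add_sum_filter_not (range L) (fun l => P l ≠ 0)] at h2
      have h5 : ∑ l ∈ (range L).filter (fun l => ¬ P l ≠ 0),
          (P l).eval (((r0 + s * q : ℕ) : F) + ((i : ℕ) : F)) * θ ^ (l * (i : ℕ)) *
            (θ ^ (l * r0) * δ ^ (l * s) * γ ^ ((L - 1 - l) * s)) = 0 := by
        apply Finset.sum_eq_zero
        intro l hl
        rw [Finset.mem_filter, not_not] at hl
        rw [hl.2, eval_zero, zero_mul, zero_mul]
      rw [h5, add_zero] at h2
      rw [← h2]
      symm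
      rw [← hΛ]
      rw [← Finset.sum_coe_sort Λ]
      symm
      rw [← Equiv.sum_comp e]
      refine Finset.sum_congr rfl fun m _ => ?_
      change (eval ((r0 + s * q : ℕ) : F) ((P (ll m)).comp (X + C ((i : ℕ) : F)) *
        C ((θ ^ (ll m)) ^ (i : ℕ)))) * _ = _
      rw [eval_mul, eval_comp, eval_add, eval_X, eval_C, eval_C, ← pow_mul]
  · rw [hZcard]
    exact lt_of_le_of_lt hMdet_deg hRS

/-- Selection of rows with nonzero determinant. -/
theorem exists_rows (K L q R2 S : ℕ) (θ δ γ : F) (hθ : θ ≠ 0) (hδ : δ ≠ 0) (hγ : γ ≠ 0)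
    (hinj : ∀ l l', l < L → l' < L → θ ^ l = θ ^ l' → l = l') (hq : R2 ≤ q)
    (hRS : L * (K - 1) < R2 * S) :
    ∃ rr ss : Fin (K * L) → ℕ, (∀ a, rr a < R2 + L) ∧ (∀ a, ss a < S) ∧
      (Matrix.of fun (a b : Fin (K * L)) =>
        ent L q θ δ γ (finProdFinEquiv.symm b).1 (finProdFinEquiv.symm b).2 (rr a) (ss a)).det
        ≠ 0 := by
  classical
  let P : Matrix (Fin (K * L)) (Fin (R2 + L) × Fin S) F := Matrix.of fun b z =>
    ent L q θ δ γ (finProdFinEquiv.symm b).1 (finProdFinEquiv.symm b).2 z.1 z.2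
  have hker : ∀ w : Fin (K * L) → F, w ᵥ* P = 0 → w = 0 := by
    intro w hw
    let v : ℕ → ℕ → F := fun k l => if h : k < K ∧ l < L then w (finProdFinEquiv (⟨k, h.1⟩, ⟨l, h.2⟩))
      else 0
    have hv := zero_estimate K L q R2 S θ δ γ hθ hδ hγ hinj hq hRS v (by
      intro r hr s hs
      have h1 := congrFun hw (⟨r, hr⟩, ⟨s, hs⟩)
      rw [Pi.zero_apply, Matrix.vecMul, dotProduct] at h1
      rw [← h1, Finset.sum_comm, ← Equiv.sum_comp finProdFinEquiv, Fintype.sum_prod_type,
        Finset.sum_range]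
      refine Finset.sum_congr rfl fun k _ => ?_
      rw [Finset.sum_range]
      refine Finset.sum_congr rfl fun l _ => ?_
      simp only [P, Matrix.of_apply, Equiv.symm_apply_apply, v]
      rw [dif_pos ⟨k.isLt, l.isLt⟩])
    ext b
    have h2 := hv (finProdFinEquiv.symm b).2 (finProdFinEquiv.symm b).2.isLt
      (finProdFinEquiv.symm b).1 (finProdFinEquiv.symm b).1.isLt
    simp only [v] at h2
    rw [dif_pos ⟨(finProdFinEquiv.symm b).1.isLt, (finProdFinEquiv.symm b).2.isLt⟩] at h2
    have h3 : finProdFinEquiv ((⟨((finProdFinEquiv.symm b).1 : ℕ), (finProdFinEquiv.symm b).1.isLt⟩ : Fin K),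
        (⟨((finProdFinEquiv.symm b).2 : ℕ), (finProdFinEquiv.symm b).2.isLt⟩ : Fin L)) = b := by
      have : ((⟨((finProdFinEquiv.symm b).1 : ℕ), (finProdFinEquiv.symm b).1.isLt⟩ : Fin K),
        (⟨((finProdFinEquiv.symm b).2 : ℕ), (finProdFinEquiv.symm b).2.isLt⟩ : Fin L))
          = finProdFinEquiv.symm b := rfl
      rw [this, Equiv.apply_symm_apply]
    rw [h3] at h2
    rw [h2, Pi.zero_apply]
  obtain ⟨I, hI⟩ := Pool.Agent.SS.exists_minor P hker
  refine ⟨fun a => (I a).1, fun a => (I a).2, fun a => (I a).1.isLt, fun a => (I a).2.isLt, ?_⟩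
  rw [← Matrix.det_transpose] at hI
  exact hI

end Pool.Agent.GapA
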